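import Mathlib
import Pool.Agent.Lib.MP_8f6a89_co.MnC

/-!
# MP_8f6a89_co: irredundant products have at most `(n + 1).choose 3` factors
-/

namespace Pool.Agent.Results.MP_8f6a89_co.IrredundantBound

open scoped ENNReal

/-- The min-plus product of two `n × n` matrices with entries in `[0, ∞]`. -/
noncomputable def mul {n : ℕ} (A B : Fin n → Fin n → ℝ≥0∞) : Fin n → Fin n → ℝ≥0∞ :=
  fun i j => ⨅ m, A i m + B m j

/-- The lossy phone call matrix `C_kl(a)`. -/
noncomputable def call {n : ℕ} (k l : Fin n) (a : ℝ≥0∞) : Fin n → Fin n → ℝ≥0∞ :=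
  fun i j => if i = j then 0 else if (i = k ∧ j = l) ∨ (i = l ∧ j = k) then a else ⊤

/-- The min-plus product of the calls of a list of triples `(k, l, a)`, in this order; the empty
product is the tropical identity matrix. -/
noncomputable def prod {n : ℕ} : List (Fin n × Fin n × ℝ≥0∞) → Fin n → Fin n → ℝ≥0∞
  | [] => fun i j => if i = j then 0 else ⊤
  | c :: w => mul (call c.1 c.2.1 c.2.2) (prod w)

/-- The word stands for a product of lossy phone calls: the two persons of every call differ. -/
def Valid {n : ℕ} (w : List (Fin n × Fin n × ℝ≥0∞)) : Prop := ∀ c ∈ w, c.1 ≠ c.2.1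

/-- Deleting any single factor changes the value of the product. -/
def Irredundant {n : ℕ} (w : List (Fin n × Fin n × ℝ≥0∞)) : Prop :=
  ∀ m, m < w.length → prod (w.eraseIdx m) ≠ prod w

lemma prod_eq {n : ℕ} (w : List (Fin n × Fin n × ℝ≥0∞)) : prod w = Gossip.prod w := by
  induction w with
  | nil => rfl
  | cons c w ih =>
    show mul (call c.1 c.2.1 c.2.2) (prod w) = Gossip.mul (Gossip.call c.1 c.2.1 c.2.2) (Gossip.prod w)
    rw [ih]
    rfl

lemma length_le {n : ℕ} (w : List (Fin n × Fin n × ℝ≥0∞)) (hw : Valid w) (hi : Irredundant w) :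
    w.length ≤ (n + 1).choose 3 := by
  refine Gossip.length_le w hw ?_
  intro m hm
  rw [← prod_eq, ← prod_eq]
  exact hi m hm

lemma exists_sublist {n : ℕ} (N : ℕ) : ∀ w : List (Fin n × Fin n × ℝ≥0∞), w.length = N → Valid w →
    ∃ w' : List (Fin n × Fin n × ℝ≥0∞), w'.Sublist w ∧ prod w' = prod w ∧
      w'.length ≤ (n + 1).choose 3 := by
  induction N with
  | zero =>
    intro w h0 _
    exact ⟨w, List.Sublist.refl w, rfl, by omega⟩
  | succ N ih =>
    intro w hN hw
    by_cases hi : Irredundant w
    · exact ⟨w, List.Sublist.refl w, rfl, length_le w hw hi⟩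
    · unfold Irredundant at hi
      push Not at hi
      obtain ⟨m, hm, he⟩ := hi
      have hs : (w.eraseIdx m).Sublist w := List.eraseIdx_sublist w m
      have hl : (w.eraseIdx m).length = N := by
        rw [List.length_eraseIdx_of_lt hm]
        omega
      obtain ⟨w', h1, h2, h3⟩ := ih (w.eraseIdx m) hl fun c hc => hw c (hs.subset hc)
      exact ⟨w', h1.trans hs, h2.trans he, h3⟩

/-- Every irredundant product of lossy phone calls among `n` persons has at most
`(n + 1).choose 3` factors, and every product of lossy phone calls equals the product of a subword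
of at most `(n + 1).choose 3` of its factors. -/
theorem result :
    (∀ (n : ℕ) (w : List (Fin n × Fin n × ℝ≥0∞)), Valid w → Irredundant w →
      w.length ≤ (n + 1).choose 3) ∧
    (∀ (n : ℕ) (w : List (Fin n × Fin n × ℝ≥0∞)), Valid w →
      ∃ w' : List (Fin n × Fin n × ℝ≥0∞), w'.Sublist w ∧ prod w' = prod w ∧
        w'.length ≤ (n + 1).choose 3) :=
  ⟨fun _ w hw hi => length_le w hw hi, fun _ w hw => exists_sublist w.length w rfl hw⟩

end Pool.Agent.Results.MP_8f6a89_co.IrredundantBound
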