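import Mathlib

/-!
# MP_8f6a89_co: the length bound for line networks

Products of lossy phone calls between consecutive persons on a line have length at most
`n.choose 2`, and the shorter product can be taken on the same line.
-/

set_option linter.unusedSectionVars false

namespace Pool.Agent.Results.MP_8f6a89_co.LineNetwork

open scoped ENNReal

/-- The min-plus product of two `n × n` matrices with entries in `[0, ∞]`. -/
noncomputable def mul {n : ℕ} (A B : Fin n → Fin n → ℝ≥0∞) : Fin n → Fin n → ℝ≥0∞ :=
  fun i j => ⨅ m, A i m + B m j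

/-- The lossy phone call matrix `C_kl(a)`. -/
noncomputable def call {n : ℕ} (k l : Fin n) (a : ℝ≥0∞) : Fin n → Fin n → ℝ≥0∞ :=
  fun i j => if i = j then 0 else if (i = k ∧ j = l) ∨ (i = l ∧ j = k) then a else ⊤

/-- The min-plus product of the calls of a list of triples `(k, l, a)`, in this order; the empty
product is the tropical identity matrix. -/
noncomputable def prod {n : ℕ} : List (Fin n × Fin n × ℝ≥0∞) → Fin n → Fin n → ℝ≥0∞
  | [] => fun i j => if i = j then 0 else ⊤
  | c :: w => mul (call c.1 c.2.1 c.2.2) (prod w)

/-! ### Abstract normal form -/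

section abs

variable {M : Type*} [Monoid M] (L : ℕ → ℝ≥0∞ → M)

/-- product of a word -/
def P (w : List (ℕ × ℝ≥0∞)) : M := (w.map fun x => L x.1 x.2).prod

/-- the ascending run starting at `s` -/
def run : ℕ → List ℝ≥0∞ → List (ℕ × ℝ≥0∞)
  | _, [] => []
  | s, a :: c => (s, a) :: run (s + 1) c

@[simp] lemma P_nil : P L [] = 1 := rfl

@[simp] lemma P_cons (x : ℕ × ℝ≥0∞) (w : List (ℕ × ℝ≥0∞)) :
    P L (x :: w) = L x.1 x.2 * P L w := by simp [P]

@[simp] lemma P_append (u w : List (ℕ × ℝ≥0∞)) : P L (u ++ w) = P L u * P L w := by
  simp [P]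

lemma length_run (s : ℕ) (c : List ℝ≥0∞) : (run s c).length = c.length := by
  induction c generalizing s with
  | nil => rfl
  | cons a c ih => simp [run, ih]

lemma mem_run {s : ℕ} {c : List ℝ≥0∞} {x : ℕ × ℝ≥0∞} (h : x ∈ run s c) :
    s ≤ x.1 ∧ x.1 < s + c.length := by
  induction c generalizing s with
  | nil => simp [run] at h
  | cons a c ih =>
    simp only [run, List.mem_cons] at h
    rcases h with rfl | h
    · simp
    · have := ih h
      simp only [List.length_cons]
      omega

variable {L} {N : ℕ}

lemma comm_list (hcomm : ∀ i j a b, i + 2 ≤ j → j < N → L i a * L j b = L j b * L i a)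
    (i : ℕ) (a : ℝ≥0∞) (u : List (ℕ × ℝ≥0∞)) (hu : ∀ x ∈ u, i + 2 ≤ x.1 ∧ x.1 < N) :
    L i a * P L u = P L u * L i a := by
  induction u with
  | nil => simp
  | cons x u ih =>
    have h1 := hu x (by simp)
    have h2 := ih fun y hy => hu y (by simp [hy])
    rw [P_cons, ← mul_assoc, hcomm i x.1 a x.2 h1.1 h1.2, mul_assoc, h2, mul_assoc]

lemma absorb (hcomm : ∀ i j a b, i + 2 ≤ j → j < N → L i a * L j b = L j b * L i a)
    (hmerge : ∀ i a b, i < N → L i a * L i b = L i (min a b))
    (hbraid : ∀ i a b c, i + 1 < N → ∃ a' m c',
      L i a * L (i + 1) b * L i c = L (i + 1) a' * L i m * L (i + 1) c')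
    (c : List ℝ≥0∞) : ∀ (s k t : ℕ) (a : ℝ≥0∞), s ≤ t → t < s + k → c.length ≤ k → s + k ≤ N →
    ∃ u c', (∀ x ∈ u, s + 1 ≤ x.1 ∧ x.1 < s + k) ∧ c'.length ≤ k ∧
      P L (run s c) * L t a = P L u * P L (run s c') := by
  induction c with
  | nil =>
    intro s k t a hst htk _ _
    rcases Nat.eq_or_lt_of_le hst with rfl | hlt
    · refine ⟨[], [a], by simp, by simp; omega, ?_⟩
      simp [run]
    · refine ⟨[(t, a)], [], ?_, by simp, ?_⟩
      · intro x hx
        simp only [List.mem_singleton] at hx
        subst hx
        exact ⟨hlt, htk⟩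
      · simp [run]
  | cons c0 cs ih =>
    intro s k t a hst htk hlen hN
    simp only [List.length_cons] at hlen
    rcases Nat.eq_or_lt_of_le hst with rfl | hlt
    · -- the letter has the index of the first letter of the run
      cases cs with
      | nil =>
        refine ⟨[], [min c0 a], by simp, by simp; omega, ?_⟩
        simp [run, hmerge s c0 a (by omega)]
      | cons c1 rest =>
        simp only [List.length_cons] at hlen
        obtain ⟨a', m, c', hb⟩ := hbraid s c0 c1 a (by omega)
        refine ⟨[(s + 1, a')], m :: c' :: rest, ?_, by simp; omega, ?_⟩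
        · intro x hx
          simp only [List.mem_singleton] at hx
          subst hx
          exact ⟨le_rfl, by simp only; omega⟩
        · have h1 : L s a * P L (run (s + 2) rest) = P L (run (s + 2) rest) * L s a := by
            apply comm_list hcomm
            intro x hx
            have := mem_run hx
            exact ⟨this.1, by omega⟩
          simp only [run, P_cons, P_nil, mul_one]
          have h2 : L s c0 * (L (s + 1) c1 * P L (run (s + 1 + 1) rest)) * L s a =
              L s c0 * L (s + 1) c1 * L s a * P L (run (s + 2) rest) := by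
            rw [mul_assoc (L s c0 * L (s + 1) c1), h1]
            simp only [mul_assoc]
          rw [h2, hb]
          simp only [mul_assoc]
    · -- recursion
      obtain ⟨u, c'', hu, hc, he⟩ := ih (s + 1) (k - 1) t a hlt (by omega) (by omega) (by omega)
      refine ⟨u, c0 :: c'', ?_, by simp; omega, ?_⟩
      · intro x hx
        have := hu x hx
        omega
      · have h1 : L s c0 * P L u = P L u * L s c0 := by
          apply comm_list hcomm
          intro x hx
          have := hu x hx
          omega
        simp only [run, P_cons]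
        rw [mul_assoc, he, ← mul_assoc, h1, mul_assoc]

lemma split (hcomm : ∀ i j a b, i + 2 ≤ j → j < N → L i a * L j b = L j b * L i a)
    (hmerge : ∀ i a b, i < N → L i a * L i b = L i (min a b))
    (hbraid : ∀ i a b c, i + 1 < N → ∃ a' m c',
      L i a * L (i + 1) b * L i c = L (i + 1) a' * L i m * L (i + 1) c')
    (s k : ℕ) (hN : s + k ≤ N) (w : List (ℕ × ℝ≥0∞))
    (hw : ∀ x ∈ w, s ≤ x.1 ∧ x.1 < s + k) :
    ∃ u c', (∀ x ∈ u, s + 1 ≤ x.1 ∧ x.1 < s + k) ∧ c'.length ≤ k ∧
      P L w = P L u * P L (run s c') := by
  induction w using List.reverseRecOn with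
  | nil => exact ⟨[], [], by simp, by simp, by simp [run]⟩
  | append_singleton w x ih =>
    obtain ⟨u, c, hu, hc, he⟩ := ih fun y hy => hw y (by simp [hy])
    have hx := hw x (by simp)
    obtain ⟨u', c', hu', hc', he'⟩ := absorb hcomm hmerge hbraid c s k x.1 x.2 hx.1 hx.2 hc hN
    refine ⟨u ++ u', c', ?_, hc', ?_⟩
    · intro y hy
      rcases List.mem_append.1 hy with hy | hy
      · exact hu y hy
      · exact hu' y hy
    · rw [P_append, he, P_append, mul_assoc, mul_assoc, ← he']
      simp

lemma shorten (hcomm : ∀ i j a b, i + 2 ≤ j → j < N → L i a * L j b = L j b * L i a)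
    (hmerge : ∀ i a b, i < N → L i a * L i b = L i (min a b))
    (hbraid : ∀ i a b c, i + 1 < N → ∃ a' m c',
      L i a * L (i + 1) b * L i c = L (i + 1) a' * L i m * L (i + 1) c') (k : ℕ) :
    ∀ s, s + k ≤ N → ∀ w : List (ℕ × ℝ≥0∞), (∀ x ∈ w, s ≤ x.1 ∧ x.1 < s + k) →
    ∃ w', (∀ x ∈ w', s ≤ x.1 ∧ x.1 < s + k) ∧ w'.length ≤ (k + 1).choose 2 ∧
      P L w' = P L w := by
  induction k with
  | zero =>
    intro s _ w hw
    cases w with
    | nil => exact ⟨[], by simp, by simp, rfl⟩
    | cons x w =>
      have := hw x (by simp)
      omega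
  | succ k ih =>
    intro s hs w hw
    obtain ⟨u, c, hu, hc, he⟩ := split hcomm hmerge hbraid s (k + 1) hs w hw
    obtain ⟨u', hu', hl, hp⟩ := ih (s + 1) (by omega) u (fun x hx => by
      have := hu x hx
      omega)
    refine ⟨u' ++ run s c, ?_, ?_, ?_⟩
    · intro x hx
      rcases List.mem_append.1 hx with hx | hx
      · have := hu' x hx
        omega
      · have := mem_run hx
        omega
    · rw [List.length_append, length_run]
      have : (k + 1 + 1).choose 2 = (k + 1) + (k + 1).choose 2 := by
        rw [Nat.choose_succ_succ' (k + 1) 1, Nat.choose_one_right]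
      omega
    · rw [P_append, hp, he]

end abs

/-! ### Min-plus matrices -/

/-- type synonym carrying the min-plus product -/
def MP (n : ℕ) : Type := Fin n → Fin n → ℝ≥0∞

lemma mul_assoc' {n : ℕ} (A B C : Fin n → Fin n → ℝ≥0∞) :
    mul (mul A B) C = mul A (mul B C) := by
  funext i j
  unfold mul
  simp only [ENNReal.iInf_add, ENNReal.add_iInf]
  rw [iInf_comm]
  simp only [add_assoc]

lemma one_mul' {n : ℕ} (A : Fin n → Fin n → ℝ≥0∞) : mul (prod []) A = A := by
  funext i j
  apply le_antisymm
  · refine (iInf_le _ i).trans ?_
    simp [prod]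
  · refine le_iInf fun m => ?_
    by_cases h : i = m
    · subst h; simp [prod]
    · simp [prod, h]

lemma mul_one' {n : ℕ} (A : Fin n → Fin n → ℝ≥0∞) : mul A (prod []) = A := by
  funext i j
  apply le_antisymm
  · refine (iInf_le _ j).trans ?_
    simp [prod]
  · refine le_iInf fun m => ?_
    by_cases h : m = j
    · subst h; simp [prod]
    · simp [prod, h]

noncomputable instance (n : ℕ) : Monoid (MP n) where
  mul := mul
  one := prod []
  mul_assoc := mul_assoc'
  one_mul := one_mul'
  mul_one := mul_one'

/-- a call as an element of the monoid -/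
noncomputable def callM {n : ℕ} (k l : Fin n) (a : ℝ≥0∞) : MP n := call k l a

/-- the action of a call on a row -/
noncomputable def act {n : ℕ} (k l : Fin n) (a : ℝ≥0∞) (r : Fin n → ℝ≥0∞) : Fin n → ℝ≥0∞ :=
  fun j => if j = k then min (r k) (r l + a) else if j = l then min (r l) (r k + a) else r j

lemma mul_call {n : ℕ} {k l : Fin n} (hkl : k ≠ l) (a : ℝ≥0∞) (A : Fin n → Fin n → ℝ≥0∞)
    (i : Fin n) : mul A (call k l a) i = act k l a (A i) := by
  funext j
  unfold mul act
  by_cases hjk : j = k
  · subst hjk
    simp only [if_true]
    apply le_antisymm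
    · refine le_min ?_ ?_
      · refine (iInf_le _ j).trans ?_
        simp [call]
      · refine (iInf_le _ l).trans ?_
        simp [call, hkl.symm]
    · refine le_iInf fun m => ?_
      by_cases hm : m = j
      · subst hm; simp [call]
      · by_cases hm' : m = l
        · subst hm'; simp [call, hm]
        · simp [call, hm, hm']
  · by_cases hjl : j = l
    · subst hjl
      simp only [hjk, if_false, if_true]
      apply le_antisymm
      · refine le_min ?_ ?_
        · refine (iInf_le _ j).trans ?_
          simp [call]
        · refine (iInf_le _ k).trans ?_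
          simp [call, hkl]
      · refine le_iInf fun m => ?_
        by_cases hm : m = j
        · subst hm; simp [call]
        · by_cases hm' : m = k
          · subst hm'; simp [call, hm]
          · simp [call, hm, hm']
    · simp only [hjk, hjl, if_false]
      apply le_antisymm
      · refine (iInf_le _ j).trans ?_
        simp [call]
      · refine le_iInf fun m => ?_
        by_cases hm : m = j
        · subst hm; simp [call]
        · simp [call, hm, hjk, hjl]

lemma call_symm {n : ℕ} (k l : Fin n) (a : ℝ≥0∞) : call k l a = call l k a := by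
  funext i j
  unfold call
  congr 1
  simp only [or_comm]

/-- equality of products of calls from equality of the actions on rows -/
lemma mul_eq_of_act {n : ℕ} {A B : Fin n → Fin n → ℝ≥0∞}
    (h : ∀ (X : Fin n → Fin n → ℝ≥0∞) i, mul X A i = mul X B i) : A = B := by
  have := funext (h (prod []))
  rwa [one_mul', one_mul'] at this

lemma merge {n : ℕ} {k l : Fin n} (hkl : k ≠ l) (a b : ℝ≥0∞) :
    mul (call k l a) (call k l b) = call k l (min a b) := by
  apply mul_eq_of_act
  intro X i
  rw [← mul_assoc', mul_call hkl, mul_call hkl, mul_call hkl]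
  funext j
  unfold act
  by_cases hjk : j = k
  · subst hjk
    simp only [hkl.symm, if_true, if_false]
    rw [← min_add_add_left]
    apply le_antisymm
    · refine le_min ?_ (le_min ?_ ?_)
      · exact min_le_of_left_le (min_le_left _ _)
      · exact min_le_of_left_le (min_le_right _ _)
      · exact min_le_of_right_le (add_le_add_left (min_le_left _ _) _)
    · refine le_min (le_min ?_ ?_) ?_
      · exact min_le_left _ _
      · exact min_le_of_right_le (min_le_left _ _)
      · rw [← min_add_add_right]
        refine le_min ?_ ?_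
        · exact min_le_of_right_le (min_le_right _ _)
        · exact min_le_of_left_le (by rw [add_assoc]; exact le_self_add)
  · by_cases hjl : j = l
    · subst hjl
      simp only [hjk, if_true, if_false]
      rw [← min_add_add_left]
      apply le_antisymm
      · refine le_min ?_ (le_min ?_ ?_)
        · exact min_le_of_left_le (min_le_left _ _)
        · exact min_le_of_left_le (min_le_right _ _)
        · exact min_le_of_right_le (add_le_add_left (min_le_left _ _) _)
      · refine le_min (le_min ?_ ?_) ?_
        · exact min_le_left _ _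
        · exact min_le_of_right_le (min_le_left _ _)
        · rw [← min_add_add_right]
          refine le_min ?_ ?_
          · exact min_le_of_right_le (min_le_right _ _)
          · exact min_le_of_left_le (by rw [add_assoc]; exact le_self_add)
    · simp only [hjk, hjl, if_false]

lemma comm {n : ℕ} {k l k' l' : Fin n} (h1 : k ≠ l) (h2 : k' ≠ l') (h3 : k ≠ k') (h4 : k ≠ l')
    (h5 : l ≠ k') (h6 : l ≠ l') (a b : ℝ≥0∞) :
    mul (call k l a) (call k' l' b) = mul (call k' l' b) (call k l a) := by
  apply mul_eq_of_act
  intro X i
  rw [← mul_assoc', ← mul_assoc', mul_call h2, mul_call h1, mul_call h1, mul_call h2]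
  funext j
  unfold act
  by_cases hjk : j = k
  · subst hjk
    simp [h3, h4, h5, h6]
  · by_cases hjl : j = l
    · subst hjl
      simp [h3, h4, h5, h6, h1.symm]
    · by_cases hjk' : j = k'
      · subst hjk'
        simp [h3.symm, h4.symm, h5.symm, h6.symm]
      · by_cases hjl' : j = l'
        · subst hjl'
          simp [h3.symm, h4.symm, h5.symm, h6.symm, h2.symm]
        · simp [hjk, hjl, hjk', hjl']

/-- the braid identity on the three entries, first case -/
lemma braid_aux1 (R S T a b t : ℝ≥0∞) :
    min (min R (S + a)) (min (min S (R + a)) (T + b) + (a + t)) =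
        min R (min S (T + (b + t)) + a) ∧
    min (min (min S (R + a)) (T + b)) (min R (S + a) + (a + t)) =
        min (min (min S (T + (b + t))) (R + a)) (min T (S + (b + t)) + b) ∧
    min T (min S (R + a) + b) =
        min (min T (S + (b + t))) (min (min S (T + (b + t))) (R + a) + b) := by
  refine ⟨?_, ?_, ?_⟩
  · simp only [← min_add_add_right]
    apply le_antisymm
    · refine le_min ?_ (le_min ?_ ?_)
      · exact min_le_of_left_le (min_le_left _ _)
      · exact min_le_of_left_le (min_le_right _ _)
      · refine min_le_of_right_le (min_le_of_right_le (le_of_eq (by ring)))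
    · refine le_min (le_min ?_ ?_) (le_min (le_min ?_ ?_) ?_)
      · exact min_le_left _ _
      · exact min_le_of_right_le (min_le_left _ _)
      · refine min_le_of_right_le (min_le_of_left_le ?_)
        rw [← add_assoc]; exact le_self_add
      · refine min_le_of_left_le ?_
        rw [add_assoc]; exact le_self_add
      · refine min_le_of_right_le (min_le_of_right_le (le_of_eq (by ring)))
  · simp only [← min_add_add_right]
    apply le_antisymm
    · refine le_min (le_min (le_min ?_ ?_) ?_) (le_min ?_ ?_)
      · exact min_le_of_left_le (min_le_of_left_le (min_le_left _ _))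
      · refine min_le_of_left_le (min_le_of_right_le ?_)
        rw [← add_assoc]; exact le_self_add
      · exact min_le_of_left_le (min_le_of_left_le (min_le_right _ _))
      · exact min_le_of_left_le (min_le_right _ _)
      · refine min_le_of_left_le (min_le_of_left_le (min_le_of_left_le ?_))
        rw [add_assoc]; exact le_self_add
    · refine le_min (le_min (le_min ?_ ?_) ?_) (le_min ?_ ?_)
      · exact min_le_of_left_le (min_le_of_left_le (min_le_left _ _))
      · exact min_le_of_left_le (min_le_right _ _)
      · exact min_le_of_right_le (min_le_left _ _)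
      · refine min_le_of_left_le (min_le_of_right_le ?_)
        rw [← add_assoc]; exact le_self_add
      · refine min_le_of_left_le (min_le_of_left_le (min_le_of_left_le ?_))
        rw [add_assoc]; exact le_self_add
  · simp only [← min_add_add_right]
    apply le_antisymm
    · refine le_min (le_min ?_ ?_) (le_min (le_min ?_ ?_) ?_)
      · exact min_le_left _ _
      · refine min_le_of_right_le (min_le_of_left_le ?_)
        rw [← add_assoc]; exact le_self_add
      · exact min_le_of_right_le (min_le_left _ _)
      · refine min_le_of_left_le ?_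
        rw [add_assoc]; exact le_self_add
      · exact min_le_of_right_le (min_le_right _ _)
    · refine le_min ?_ (le_min ?_ ?_)
      · exact min_le_of_left_le (min_le_left _ _)
      · exact min_le_of_right_le (min_le_of_left_le (min_le_left _ _))
      · exact min_le_of_right_le (min_le_right _ _)

/-- the braid identity on the three entries, second case -/
lemma braid_aux2 (R S T b c t : ℝ≥0∞) :
    min (min R (S + (c + t))) (min (min S (R + (c + t))) (T + b) + c) =
        min R (min S (T + b) + c) ∧
    min (min (min S (R + (c + t))) (T + b)) (min R (S + (c + t)) + c) =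
        min (min (min S (T + b)) (R + c)) (min T (S + b) + (b + t)) ∧
    min T (min S (R + (c + t)) + b) =
        min (min T (S + b)) (min (min S (T + b)) (R + c) + (b + t)) := by
  refine ⟨?_, ?_, ?_⟩
  · simp only [← min_add_add_right]
    apply le_antisymm
    · refine le_min ?_ (le_min ?_ ?_)
      · exact min_le_of_left_le (min_le_left _ _)
      · exact min_le_of_right_le (min_le_of_left_le (min_le_left _ _))
      · exact min_le_of_right_le (min_le_right _ _)
    · refine le_min (le_min ?_ ?_) (le_min (le_min ?_ ?_) ?_)
      · exact min_le_left _ _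
      · refine min_le_of_right_le (min_le_of_left_le ?_)
        rw [← add_assoc]; exact le_self_add
      · exact min_le_of_right_le (min_le_left _ _)
      · refine min_le_of_left_le ?_
        rw [add_assoc]; exact le_self_add
      · exact min_le_of_right_le (min_le_right _ _)
  · simp only [← min_add_add_right]
    apply le_antisymm
    · refine le_min (le_min (le_min ?_ ?_) ?_) (le_min ?_ ?_)
      · exact min_le_of_left_le (min_le_of_left_le (min_le_left _ _))
      · exact min_le_of_left_le (min_le_right _ _)
      · exact min_le_of_right_le (min_le_left _ _)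
      · refine min_le_of_left_le (min_le_of_right_le ?_)
        rw [← add_assoc]; exact le_self_add
      · refine min_le_of_left_le (min_le_of_left_le (min_le_of_left_le ?_))
        rw [add_assoc]; exact le_self_add
    · refine le_min (le_min (le_min ?_ ?_) ?_) (le_min ?_ ?_)
      · exact min_le_of_left_le (min_le_of_left_le (min_le_left _ _))
      · refine min_le_of_left_le (min_le_of_right_le ?_)
        rw [← add_assoc]; exact le_self_add
      · exact min_le_of_left_le (min_le_of_left_le (min_le_right _ _))
      · exact min_le_of_left_le (min_le_right _ _)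
      · refine min_le_of_left_le (min_le_of_left_le (min_le_of_left_le ?_))
        rw [add_assoc]; exact le_self_add
  · simp only [← min_add_add_right]
    apply le_antisymm
    · refine le_min (le_min ?_ ?_) (le_min (le_min ?_ ?_) ?_)
      · exact min_le_left _ _
      · exact min_le_of_right_le (min_le_left _ _)
      · refine min_le_of_right_le (min_le_of_left_le ?_)
        rw [← add_assoc]; exact le_self_add
      · refine min_le_of_left_le ?_
        rw [add_assoc]; exact le_self_add
      · refine min_le_of_right_le (min_le_of_right_le (le_of_eq (by ring)))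
    · refine le_min ?_ (le_min ?_ ?_)
      · exact min_le_of_left_le (min_le_left _ _)
      · exact min_le_of_left_le (min_le_right _ _)
      · refine min_le_of_right_le (min_le_of_right_le (le_of_eq (by ring)))

/-- the tropical braid relation -/
lemma braid {n : ℕ} {x y z : Fin n} (hxy : x ≠ y) (hyz : y ≠ z) (hxz : x ≠ z) (a b c : ℝ≥0∞) :
    ∃ a' m c', mul (mul (call x y a) (call y z b)) (call x y c) =
      mul (mul (call y z a') (call x y m)) (call y z c') := by
  rcases le_total a c with hac | hca
  · obtain ⟨t, rfl⟩ := exists_add_of_le hac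
    refine ⟨b + t, a, b, ?_⟩
    apply mul_eq_of_act
    intro X i
    rw [← mul_assoc', ← mul_assoc', ← mul_assoc', ← mul_assoc', mul_call hxy, mul_call hyz,
      mul_call hxy, mul_call hyz, mul_call hxy, mul_call hyz]
    obtain ⟨h1, h2, h3⟩ := braid_aux1 (X i x) (X i y) (X i z) a b t
    funext j
    by_cases hjx : j = x
    · subst hjx
      simpa [act, hxy, hyz, hxz, hxy.symm, hyz.symm, hxz.symm] using h1
    · by_cases hjy : j = y
      · subst hjy
        simpa [act, hxy, hyz, hxz, hxy.symm, hyz.symm, hxz.symm] using h2
      · by_cases hjz : j = z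
        · subst hjz
          simpa [act, hxy, hyz, hxz, hxy.symm, hyz.symm, hxz.symm] using h3
        · simp [act, hjx, hjy, hjz]
  · obtain ⟨t, rfl⟩ := exists_add_of_le hca
    refine ⟨b, c, b + t, ?_⟩
    apply mul_eq_of_act
    intro X i
    rw [← mul_assoc', ← mul_assoc', ← mul_assoc', ← mul_assoc', mul_call hxy, mul_call hyz,
      mul_call hxy, mul_call hyz, mul_call hxy, mul_call hyz]
    obtain ⟨h1, h2, h3⟩ := braid_aux2 (X i x) (X i y) (X i z) b c t
    funext j
    by_cases hjx : j = x
    · subst hjx
      simpa [act, hxy, hyz, hxz, hxy.symm, hyz.symm, hxz.symm] using h1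
    · by_cases hjy : j = y
      · subst hjy
        simpa [act, hxy, hyz, hxz, hxy.symm, hyz.symm, hxz.symm] using h2
      · by_cases hjz : j = z
        · subst hjz
          simpa [act, hxy, hyz, hxz, hxy.symm, hyz.symm, hxz.symm] using h3
        · simp [act, hjx, hjy, hjz]

/-! ### The theorem -/

/-- the word of calls along `p` -/
noncomputable def word {n : ℕ} (p : ℕ → Fin n) (w : List (ℕ × ℝ≥0∞)) :
    List (Fin n × Fin n × ℝ≥0∞) :=
  w.map fun x => (p x.1, p (x.1 + 1), x.2)

lemma prod_word {n : ℕ} (p : ℕ → Fin n) (w : List (ℕ × ℝ≥0∞)) :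
    prod (word p w) = P (M := MP n) (fun i a => callM (p i) (p (i + 1)) a) w := by
  induction w with
  | nil => rfl
  | cons x w ih =>
    have h1 : prod (word p (x :: w)) =
      mul (call (p x.1) (p (x.1 + 1)) x.2) (prod (word p w)) := rfl
    rw [h1, ih]
    exact (P_cons (M := MP n) (fun i a => callM (p i) (p (i + 1)) a) x w).symm

/-- **Line networks.** If all calls of a product of lossy phone calls are between persons which are
consecutive on a line (`σ` is the enumeration of the `n` persons along the line), then the product
is a product of at most `n.choose 2` lossy phone calls between such persons. -/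
theorem result (n : ℕ) (σ : Equiv.Perm (Fin n)) (w : List (Fin n × Fin n × ℝ≥0∞))
    (hw : ∀ c ∈ w, (σ c.1 : ℕ) + 1 = σ c.2.1 ∨ (σ c.2.1 : ℕ) + 1 = σ c.1) :
    ∃ w' : List (Fin n × Fin n × ℝ≥0∞),
      (∀ c ∈ w', (σ c.1 : ℕ) + 1 = σ c.2.1 ∨ (σ c.2.1 : ℕ) + 1 = σ c.1) ∧
      w'.length ≤ n.choose 2 ∧ prod w' = prod w := by
  rcases Nat.eq_zero_or_pos n with rfl | hn
  · cases w with
    | nil => exact ⟨[], by simp, by simp, rfl⟩
    | cons c w => exact c.1.elim0
  obtain ⟨N, rfl⟩ : ∃ N, n = N + 1 := ⟨n - 1, by omega⟩
  set p : ℕ → Fin (N + 1) := fun i => σ.symm (Fin.ofNat (N + 1) i) with hp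
  have hσp : ∀ i, i < N + 1 → ((σ (p i) : Fin (N + 1)) : ℕ) = i := by
    intro i hi
    simp [hp, Fin.ofNat, Nat.mod_eq_of_lt hi]
  have hpσ : ∀ x : Fin (N + 1), p (σ x) = x := by
    intro x
    simp only [hp]
    rw [Equiv.symm_apply_eq]
    apply Fin.ext
    simp [Fin.ofNat, Nat.mod_eq_of_lt (σ x).2]
  have hinj : ∀ i j, i < N + 1 → j < N + 1 → i ≠ j → p i ≠ p j := by
    intro i j hi hj hij h
    apply hij
    rw [← hσp i hi, ← hσp j hj, h]
  -- the given word as a word of indices
  have hconv : ∀ w : List (Fin (N + 1) × Fin (N + 1) × ℝ≥0∞),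
      (∀ c ∈ w, (σ c.1 : ℕ) + 1 = σ c.2.1 ∨ (σ c.2.1 : ℕ) + 1 = σ c.1) →
      ∃ u : List (ℕ × ℝ≥0∞), (∀ x ∈ u, 0 ≤ x.1 ∧ x.1 < 0 + N) ∧ prod (word p u) = prod w := by
    intro w hw
    induction w with
    | nil => exact ⟨[], by simp, rfl⟩
    | cons c w ih =>
      obtain ⟨u, hu, he⟩ := ih fun x hx => hw x (by simp [hx])
      rcases hw c (by simp) with h | h
      · refine ⟨((σ c.1 : ℕ), c.2.2) :: u, ?_, ?_⟩
        · intro x hx
          rcases List.mem_cons.1 hx with rfl | hx
          · have := (σ c.2.1).2
            exact ⟨by omega, by simp only; omega⟩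
          · exact hu x hx
        · have h1 : prod (word p (((σ c.1 : ℕ), c.2.2) :: u)) =
              mul (call (p (σ c.1)) (p ((σ c.1 : ℕ) + 1)) c.2.2) (prod (word p u)) := rfl
          rw [h1, he, h, hpσ, hpσ]
          rfl
      · refine ⟨((σ c.2.1 : ℕ), c.2.2) :: u, ?_, ?_⟩
        · intro x hx
          rcases List.mem_cons.1 hx with rfl | hx
          · have := (σ c.1).2
            exact ⟨by omega, by simp only; omega⟩
          · exact hu x hx
        · have h1 : prod (word p (((σ c.2.1 : ℕ), c.2.2) :: u)) =
              mul (call (p (σ c.2.1)) (p ((σ c.2.1 : ℕ) + 1)) c.2.2) (prod (word p u)) := rfl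
          rw [h1, he, h, hpσ, hpσ, call_symm]
          rfl
  obtain ⟨u, hu, he⟩ := hconv w hw
  have hcomm : ∀ i j a b, i + 2 ≤ j → j < N →
      callM (p i) (p (i + 1)) a * callM (p j) (p (j + 1)) b =
        callM (p j) (p (j + 1)) b * callM (p i) (p (i + 1)) a := by
    intro i j a b hij hj
    have h1 := hinj i (i + 1) (by omega) (by omega) (by omega)
    have h2 := hinj j (j + 1) (by omega) (by omega) (by omega)
    have h3 := hinj i j (by omega) (by omega) (by omega)
    have h4 := hinj i (j + 1) (by omega) (by omega) (by omega)
    have h5 := hinj (i + 1) j (by omega) (by omega) (by omega)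
    have h6 := hinj (i + 1) (j + 1) (by omega) (by omega) (by omega)
    exact comm h1 h2 h3 h4 h5 h6 a b
  have hmerge : ∀ i a b, i < N →
      callM (p i) (p (i + 1)) a * callM (p i) (p (i + 1)) b =
        callM (p i) (p (i + 1)) (min a b) := by
    intro i a b hi
    have h1 := hinj i (i + 1) (by omega) (by omega) (by omega)
    exact merge h1 a b
  have hbraid : ∀ i a b c, i + 1 < N → ∃ a' m c',
      callM (p i) (p (i + 1)) a * callM (p (i + 1)) (p (i + 1 + 1)) b *
        callM (p i) (p (i + 1)) c =
      callM (p (i + 1)) (p (i + 1 + 1)) a' * callM (p i) (p (i + 1)) m *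
        callM (p (i + 1)) (p (i + 1 + 1)) c' := by
    intro i a b c hi
    have h1 := hinj i (i + 1) (by omega) (by omega) (by omega)
    have h2 := hinj (i + 1) (i + 1 + 1) (by omega) (by omega) (by omega)
    have h3 := hinj i (i + 1 + 1) (by omega) (by omega) (by omega)
    exact braid h1 h2 h3 a b c
  obtain ⟨u', hu', hl, hprod⟩ := shorten (M := MP (N + 1))
    (L := fun i a => callM (p i) (p (i + 1)) a) (N := N)
    hcomm hmerge hbraid N 0 (by omega) u hu
  refine ⟨word p u', ?_, ?_, ?_⟩
  · intro c hc
    simp only [word, List.mem_map] at hc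
    obtain ⟨x, hx, rfl⟩ := hc
    have := hu' x hx
    left
    simp only
    rw [hσp _ (by omega), hσp _ (by omega)]
  · simpa [word] using hl
  · rw [prod_word, hprod, ← prod_word, he]

end Pool.Agent.Results.MP_8f6a89_co.LineNetwork
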