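import Mathlib
import Pool.Agent.Lib.MP_8f6a89_co.M3K

/-!
# MP_8f6a89_co: products of metrics

A min-plus product of `m` distance matrices is a product of at most `⌈m / 3⌉ * n.choose 2` lossy
phone calls; in particular every product of three distance matrices is a product of at most
`n.choose 2` calls (this part of the proof is in `Pool/Agent/Lib/MP_8f6a89_co/M3A` to `M3K`).  It is
also a product of at most as many calls as the sequences of the distances of the pairs have local
minima; so it is a product of at most `n.choose 2` calls if all these sequences first fall and then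
rise.
-/

set_option autoImplicit false

namespace Pool.Agent.Results.MP_8f6a89_co.MetricProduct

open scoped ENNReal

/-- The min-plus product of two `n × n` matrices with entries in `[0, ∞]`. -/
noncomputable def mul {n : ℕ} (A B : Fin n → Fin n → ℝ≥0∞) : Fin n → Fin n → ℝ≥0∞ :=
  fun i j => ⨅ m, A i m + B m j

/-- The lossy phone call matrix `C_kl(a)`. -/
noncomputable def call {n : ℕ} (k l : Fin n) (a : ℝ≥0∞) : Fin n → Fin n → ℝ≥0∞ :=
  fun i j => if i = j then 0 else if (i = k ∧ j = l) ∨ (i = l ∧ j = k) then a else ⊤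

/-- The min-plus product of the calls of a list of triples `(k, l, a)`, in this order; the empty
product is the tropical identity matrix. -/
noncomputable def prod {n : ℕ} : List (Fin n × Fin n × ℝ≥0∞) → Fin n → Fin n → ℝ≥0∞
  | [] => fun i j => if i = j then 0 else ⊤
  | c :: w => mul (call c.1 c.2.1 c.2.2) (prod w)

/-- The word stands for a product of lossy phone calls: the two persons of every call differ. -/
def Valid {n : ℕ} (w : List (Fin n × Fin n × ℝ≥0∞)) : Prop := ∀ c ∈ w, c.1 ≠ c.2.1

/-- A distance matrix: zero diagonal, symmetric, triangle inequality, entries in `[0, ∞]`. -/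
def IsMetric {n : ℕ} (D : Fin n → Fin n → ℝ≥0∞) : Prop :=
  (∀ i, D i i = 0) ∧ (∀ i j, D i j = D j i) ∧ ∀ i j k, D i k ≤ D i j + D j k

/-- The min-plus product `D 0 ⊙ D 1 ⊙ ⋯ ⊙ D (m - 1)`. -/
noncomputable def comp {n : ℕ} (D : ℕ → Fin n → Fin n → ℝ≥0∞) : ℕ → Fin n → Fin n → ℝ≥0∞
  | 0 => fun i j => if i = j then 0 else ⊤
  | m + 1 => mul (comp D m) (D m)

/-! ### Min-plus algebra -/

lemma mul_assoc' {n : ℕ} (A B C : Fin n → Fin n → ℝ≥0∞) :
    mul (mul A B) C = mul A (mul B C) := by
  funext i j
  have : Nonempty (Fin n) := ⟨i⟩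
  unfold mul
  simp only [ENNReal.iInf_add, ENNReal.add_iInf]
  rw [iInf_comm]
  simp only [add_assoc]

lemma one_mul' {n : ℕ} (A : Fin n → Fin n → ℝ≥0∞) : mul (prod []) A = A := by
  funext i j
  refine le_antisymm ?_ (le_iInf fun m => ?_)
  · refine (iInf_le _ i).trans ?_
    simp [prod]
  · by_cases h : i = m
    · subst h
      simp [prod]
    · simp [prod, h]

lemma prod_append {n : ℕ} (u v : List (Fin n × Fin n × ℝ≥0∞)) :
    prod (u ++ v) = mul (prod u) (prod v) := by
  induction u with
  | nil => rw [List.nil_append, one_mul']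
  | cons c u ih =>
    show mul _ (prod (u ++ v)) = mul (mul _ (prod u)) (prod v)
    rw [ih, mul_assoc']

lemma mul_le {n : ℕ} (A B : Fin n → Fin n → ℝ≥0∞) (i k j : Fin n) :
    mul A B i j ≤ A i k + B k j := iInf_le _ k

lemma mul_mono {n : ℕ} {A B A' B' : Fin n → Fin n → ℝ≥0∞} (h1 : ∀ i j, A i j ≤ A' i j)
    (h2 : ∀ i j, B i j ≤ B' i j) (i j : Fin n) : mul A B i j ≤ mul A' B' i j :=
  iInf_mono fun k => add_le_add (h1 i k) (h2 k j)

lemma prod_diag {n : ℕ} (w : List (Fin n × Fin n × ℝ≥0∞)) (i : Fin n) : prod w i i = 0 := by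
  induction w with
  | nil => simp [prod]
  | cons c w ih =>
    refine le_antisymm ((mul_le _ _ i i i).trans ?_) bot_le
    rw [ih]
    simp [call]

lemma prod_le_of_mem {n : ℕ} (w : List (Fin n × Fin n × ℝ≥0∞)) (c : Fin n × Fin n × ℝ≥0∞)
    (hc : c ∈ w) : prod w c.1 c.2.1 ≤ c.2.2 ∧ prod w c.2.1 c.1 ≤ c.2.2 := by
  induction w with
  | nil => simp at hc
  | cons d w ih =>
    rcases List.mem_cons.1 hc with h | h
    · subst h
      constructor
      · refine (mul_le _ _ c.1 c.2.1 c.2.1).trans ?_
        rw [prod_diag, add_zero]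
        unfold call
        split_ifs <;> simp_all
      · refine (mul_le _ _ c.2.1 c.1 c.1).trans ?_
        rw [prod_diag, add_zero]
        unfold call
        split_ifs <;> simp_all
    · obtain ⟨h1, h2⟩ := ih h
      constructor
      · refine (mul_le _ _ c.1 c.1 c.2.1).trans ?_
        simpa [call] using h1
      · refine (mul_le _ _ c.2.1 c.2.1 c.1).trans ?_
        simpa [call] using h2

lemma le_prod {n : ℕ} {D : Fin n → Fin n → ℝ≥0∞} (hD : IsMetric D)
    (w : List (Fin n × Fin n × ℝ≥0∞)) (hw : ∀ c ∈ w, D c.1 c.2.1 ≤ c.2.2) :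
    ∀ i j, D i j ≤ prod w i j := by
  induction w with
  | nil =>
    intro i j
    by_cases h : i = j
    · subst h
      simp [hD.1]
    · simp [prod, h]
  | cons c w ih =>
    intro i j
    refine le_iInf fun k => (hD.2.2 i k j).trans (add_le_add ?_ (ih (fun d hd =>
      hw d (List.mem_cons_of_mem _ hd)) k j))
    unfold call
    split_ifs with h1 h2
    · rw [h1, hD.1]
    · rcases h2 with ⟨h3, h4⟩ | ⟨h3, h4⟩
      · rw [h3, h4]
        exact hw c List.mem_cons_self
      · rw [h3, h4, hD.2.1]
        exact hw c List.mem_cons_self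
    · exact le_top

/-! ### Local minima -/

/-- `t` is the first index of a local minimum of the sequence `a 0, …, a (m - 1)`: the term before
`a t` (if there is one) is larger, and the next term different from `a t` (if there is one) is
larger too. -/
def LocMin (m : ℕ) (a : ℕ → ℝ≥0∞) (t : ℕ) : Prop :=
  (t = 0 ∨ a t < a (t - 1)) ∧
    ∀ s, t < s → s < m → (∀ u, t ≤ u → u < s → a u = a t) → a t ≤ a s

open Classical in
/-- The number of local minima of the sequence `a 0, …, a (m - 1)`, that is, of the indices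
`t < m` with `LocMin m a t`; a block of equal terms is counted once. -/
noncomputable def minCount (m : ℕ) (a : ℕ → ℝ≥0∞) : ℕ :=
  ((Finset.range m).filter (LocMin m a)).card

/-- The sequence `a 0, …, a (m - 1)` first falls and then rises (both weakly). -/
def Valley (m : ℕ) (a : ℕ → ℝ≥0∞) : Prop :=
  ∃ s, ∀ t, t + 1 < m → (t < s → a (t + 1) ≤ a t) ∧ (s ≤ t → a t ≤ a (t + 1))

/-- The sum, over all pairs `i < j`, of the number of indices `t < m` with
`LocMin m (fun s => D s i j) t`. -/
noncomputable def minima {n : ℕ} (m : ℕ) (D : ℕ → Fin n → Fin n → ℝ≥0∞) : ℕ :=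
  ∑ p ∈ (Finset.univ : Finset (Fin n × Fin n)).filter (fun p => p.1 < p.2),
    minCount m fun s => D s p.1 p.2

/-- the next term different from `a t` is smaller -/
def Desc (m : ℕ) (a : ℕ → ℝ≥0∞) (t : ℕ) : Prop :=
  ∃ s, t < s ∧ s < m ∧ (∀ u, t ≤ u → u < s → a u = a t) ∧ a s < a t

lemma locMin_of {m : ℕ} {a : ℕ → ℝ≥0∞} {t : ℕ} (h1 : t = 0 ∨ a t < a (t - 1))
    (h2 : ¬ Desc m a t) : LocMin m a t :=
  ⟨h1, fun s hs hsm hu => not_lt.1 fun hlt => h2 ⟨s, hs, hsm, hu, hlt⟩⟩

lemma desc_cases {m : ℕ} {a : ℕ → ℝ≥0∞} {t : ℕ} (h : Desc m a t) :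
    t + 1 < m ∧ (a (t + 1) < a t ∨ (a (t + 1) = a t ∧ Desc m a (t + 1))) := by
  obtain ⟨s, hs, hsm, hu, hlt⟩ := h
  rcases eq_or_ne s (t + 1) with he | hne
  · subst he
    exact ⟨hsm, Or.inl hlt⟩
  · have e : a (t + 1) = a t := hu (t + 1) (by omega) (by omega)
    exact ⟨by omega, Or.inr ⟨e, s, by omega, hsm, fun u h1 h2 => by
      rw [hu u (by omega) h2, e], by rw [e]; exact hlt⟩⟩

lemma not_desc_pred {m : ℕ} {a : ℕ → ℝ≥0∞} {s : ℕ} (h : ¬ Desc m a (s + 1))
    (e : a s = a (s + 1)) : ¬ Desc m a s := by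
  intro hd
  rcases (desc_cases hd).2 with h2 | h2
  · exact absurd h2 (by rw [e]; exact lt_irrefl _)
  · exact h h2.2

lemma locMin_congr {m : ℕ} {a b : ℕ → ℝ≥0∞} (h : ∀ t < m, a t = b t) {t : ℕ} (ht : t < m) :
    LocMin m a t → LocMin m b t := by
  rintro ⟨h1, h2⟩
  refine ⟨?_, fun s hs hsm hu => ?_⟩
  · rw [← h t ht, ← h (t - 1) (by omega)]
    exact h1
  · rw [← h t ht, ← h s hsm]
    refine h2 s hs hsm fun u hu1 hu2 => ?_
    rw [h t ht, h u (by omega)]
    exact hu u hu1 hu2

/-! ### Chains -/

/-- the cost of a chain -/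
noncomputable def cost {n : ℕ} (D : ℕ → Fin n → Fin n → ℝ≥0∞) (k : ℕ → Fin n) (m : ℕ) : ℝ≥0∞ :=
  ∑ t ∈ Finset.range m, D t (k t) (k (t + 1))

lemma comp_le_cost {n : ℕ} (D : ℕ → Fin n → Fin n → ℝ≥0∞) (k : ℕ → Fin n) (m : ℕ) :
    comp D m (k 0) (k m) ≤ cost D k m := by
  induction m with
  | zero => simp [comp, cost]
  | succ m ih =>
    refine (mul_le _ _ (k 0) (k m) (k (m + 1))).trans ?_
    unfold cost
    rw [Finset.sum_range_succ]
    exact add_le_add ih le_rfl

lemma exists_chain {n : ℕ} (D : ℕ → Fin n → Fin n → ℝ≥0∞) (m : ℕ) :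
    ∀ i j : Fin n, comp D m i j ≠ ⊤ → ∃ k : ℕ → Fin n, k 0 = i ∧ k m = j ∧
      cost D k m = comp D m i j := by
  induction m with
  | zero =>
    intro i j h
    have hij : i = j := by
      by_contra hne
      exact h (by simp [comp, hne])
    subst hij
    exact ⟨fun _ => i, rfl, rfl, by simp [cost, comp]⟩
  | succ m ih =>
    intro i j h
    have : Nonempty (Fin n) := ⟨i⟩
    obtain ⟨a, ha⟩ := exists_eq_ciInf_of_finite (f := fun a : Fin n => comp D m i a + D m a j)
    have ha' : comp D m i a + D m a j = comp D (m + 1) i j := ha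
    have h1 : comp D m i a ≠ ⊤ := by
      intro h2
      apply h
      rw [← ha', h2, top_add]
    obtain ⟨k, k0, k1, k2⟩ := ih i a h1
    refine ⟨fun t => if t ≤ m then k t else j, by simp [k0], by simp, ?_⟩
    unfold cost
    rw [Finset.sum_range_succ, ← ha', ← k2]
    unfold cost
    congr 1
    · refine Finset.sum_congr rfl fun t ht => ?_
      have ht' := Finset.mem_range.1 ht
      show D t (if t ≤ m then k t else j) (if t + 1 ≤ m then k (t + 1) else j) = _
      rw [if_pos (by omega), if_pos (by omega)]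
    · show D m (if m ≤ m then k m else j) (if m + 1 ≤ m then k (m + 1) else j) = _
      rw [if_pos le_rfl, if_neg (by omega), k1]

lemma sum_split {M : Type*} [AddCommMonoid M] (f : ℕ → M) {s m : ℕ} (h : s + 1 < m) :
    ∑ t ∈ Finset.range m, f t =
      (∑ t ∈ ((Finset.range m).erase s).erase (s + 1), f t) + f (s + 1) + f s := by
  rw [Finset.sum_erase_add _ _ (Finset.mem_erase.2 ⟨by omega, Finset.mem_range.2 h⟩),
    Finset.sum_erase_add _ _ (Finset.mem_range.2 (by omega))]

lemma sum_rest {M : Type*} [AddCommMonoid M] {n : ℕ} (F : ℕ → Fin n → Fin n → M) (k : ℕ → Fin n)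
    (y : Fin n) (s m : ℕ) :
    ∑ t ∈ ((Finset.range m).erase s).erase (s + 1),
        F t (Function.update k (s + 1) y t) (Function.update k (s + 1) y (t + 1)) =
      ∑ t ∈ ((Finset.range m).erase s).erase (s + 1), F t (k t) (k (t + 1)) := by
  refine Finset.sum_congr rfl fun t ht => ?_
  have h1 : t ≠ s + 1 := (Finset.mem_erase.1 ht).1
  have h2 : t ≠ s := (Finset.mem_erase.1 (Finset.mem_erase.1 ht).2).1
  rw [Function.update_of_ne h1, Function.update_of_ne (by omega)]

open Classical in
/-- the weight of a step of a chain -/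
noncomputable def wt {n : ℕ} (D : ℕ → Fin n → Fin n → ℝ≥0∞) (m t : ℕ) (a b : Fin n) : ℕ :=
  if a = b then 0 else m + 1 + if Desc m (fun s => D s a b) t then m - t else t

lemma wt_self {n : ℕ} (D : ℕ → Fin n → Fin n → ℝ≥0∞) (m t : ℕ) (a : Fin n) :
    wt D m t a a = 0 := by
  unfold wt
  rw [if_pos rfl]

lemma wt_le {n : ℕ} (D : ℕ → Fin n → Fin n → ℝ≥0∞) {m t : ℕ} (ht : t < m) (a b : Fin n) :
    wt D m t a b ≤ 2 * m + 1 := by
  unfold wt
  split_ifs <;> omega

lemma le_wt {n : ℕ} (D : ℕ → Fin n → Fin n → ℝ≥0∞) (m t : ℕ) {a b : Fin n} (h : a ≠ b) :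
    m + 1 ≤ wt D m t a b := by
  unfold wt
  rw [if_neg h]
  omega

lemma wt_desc {n : ℕ} (D : ℕ → Fin n → Fin n → ℝ≥0∞) (m t : ℕ) {a b : Fin n} (h : a ≠ b)
    (hd : Desc m (fun s => D s a b) t) : wt D m t a b = m + 1 + (m - t) := by
  unfold wt
  rw [if_neg h, if_pos hd]

lemma wt_not_desc {n : ℕ} (D : ℕ → Fin n → Fin n → ℝ≥0∞) (m t : ℕ) {a b : Fin n} (h : a ≠ b)
    (hd : ¬ Desc m (fun s => D s a b) t) : wt D m t a b = m + 1 + t := by
  unfold wt
  rw [if_neg h, if_neg hd]

/-- the potential of a chain -/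
noncomputable def pot {n : ℕ} (D : ℕ → Fin n → Fin n → ℝ≥0∞) (k : ℕ → Fin n) (m : ℕ) : ℕ :=
  ∑ t ∈ Finset.range m, wt D m t (k t) (k (t + 1))

/-- a step moved one factor to the right -/
lemma cost_right {n : ℕ} (D : ℕ → Fin n → Fin n → ℝ≥0∞) (m : ℕ) (hD : ∀ t < m, IsMetric (D t))
    (k : ℕ → Fin n) {t : ℕ} (ht2 : t + 1 < m) :
    cost D (Function.update k (t + 1) (k t)) m ≤
      (∑ t ∈ ((Finset.range m).erase t).erase (t + 1), D t (k t) (k (t + 1))) +
            D (t + 1) (k (t + 1)) (k (t + 1 + 1)) + D (t + 1) (k t) (k (t + 1)) := by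
  set k' := Function.update k (t + 1) (k t) with hk'
  have es : k' t = k t := by rw [hk', Function.update_of_ne (by omega)]
  have es1 : k' (t + 1) = k t := by rw [hk', Function.update_self]
  have es2 : k' (t + 1 + 1) = k (t + 1 + 1) := by
    rw [hk', Function.update_of_ne (by omega)]
  unfold cost
  rw [sum_split _ ht2, sum_rest, es, es1, es2, (hD t (by omega)).1, add_zero]
  calc _ ≤ (∑ t ∈ ((Finset.range m).erase t).erase (t + 1), D t (k t) (k (t + 1))) +
        (D (t + 1) (k t) (k (t + 1)) + D (t + 1) (k (t + 1)) (k (t + 1 + 1))) :=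
        add_le_add le_rfl ((hD (t + 1) ht2).2.2 _ _ _)
    _ = (∑ t ∈ ((Finset.range m).erase t).erase (t + 1), D t (k t) (k (t + 1))) +
        D (t + 1) (k (t + 1)) (k (t + 1 + 1)) + D (t + 1) (k t) (k (t + 1)) := by
        rw [add_comm (D (t + 1) (k t) (k (t + 1)))]
        exact (add_assoc _ _ _).symm

/-- a step moved one factor to the left -/
lemma cost_left {n : ℕ} (D : ℕ → Fin n → Fin n → ℝ≥0∞) (m : ℕ) (hD : ∀ t < m, IsMetric (D t))
    (k : ℕ → Fin n) {s : ℕ} (ht : s + 1 < m) :
    cost D (Function.update k (s + 1) (k (s + 2))) m ≤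
      (∑ t ∈ ((Finset.range m).erase s).erase (s + 1), D t (k t) (k (t + 1))) +
        D s (k s) (k (s + 1)) + D s (k (s + 1)) (k (s + 2)) := by
  set k' := Function.update k (s + 1) (k (s + 2)) with hk'
  have es : k' s = k s := by rw [hk', Function.update_of_ne (by omega)]
  have es1 : k' (s + 1) = k (s + 2) := by rw [hk', Function.update_self]
  have es2 : k' (s + 1 + 1) = k (s + 2) := by
    rw [hk', Function.update_of_ne (by omega)]
  unfold cost
  rw [sum_split _ ht, sum_rest, es, es1, es2, (hD (s + 1) ht).1, add_zero, add_assoc]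
  exact add_le_add le_rfl ((hD s (by omega)).2.2 _ _ _)

lemma key {n : ℕ} (D : ℕ → Fin n → Fin n → ℝ≥0∞) (m : ℕ) (hD : ∀ t < m, IsMetric (D t))
    (i j : Fin n) (hij : comp D m i j ≠ ⊤) :
    ∃ k : ℕ → Fin n, k 0 = i ∧ k m = j ∧ cost D k m = comp D m i j ∧
      ∀ t < m, k t ≠ k (t + 1) → LocMin m (fun s => D s (k t) (k (t + 1))) t := by
  classical
  have hex : ∃ p : ℕ, ∃ k : ℕ → Fin n, (k 0 = i ∧ k m = j ∧ cost D k m = comp D m i j) ∧
      pot D k m = p := by
    obtain ⟨k, hk⟩ := exists_chain D m i j hij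
    exact ⟨_, k, hk, rfl⟩
  obtain ⟨k, ⟨k0, k1, k2⟩, hp⟩ := Nat.find_spec hex
  have hmin : ∀ k' : ℕ → Fin n, (k' 0 = i ∧ k' m = j ∧ cost D k' m = comp D m i j) →
      pot D k m ≤ pot D k' m := by
    intro k' hk'
    rw [hp]
    exact Nat.find_min' hex ⟨k', hk', rfl⟩
  have hfin : cost D k m ≠ ⊤ := by rw [k2]; exact hij
  -- a chain that is not more expensive and has a smaller potential does not exist
  have hno : ∀ k' : ℕ → Fin n, k' 0 = i → k' m = j → cost D k' m ≤ cost D k m →
      pot D k' m < pot D k m → False := by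
    intro k' e0 e1 hc hlt
    have hc' : cost D k' m = comp D m i j := by
      refine le_antisymm (hc.trans_eq k2) ?_
      have := comp_le_cost D k' m
      rwa [e0, e1] at this
    exact absurd hlt (not_lt.2 (hmin k' ⟨e0, e1, hc'⟩))
  -- a cheaper chain does not exist
  have hno' : ∀ k' : ℕ → Fin n, k' 0 = i → k' m = j → cost D k' m < cost D k m → False := by
    intro k' e0 e1 hc
    have := comp_le_cost D k' m
    rw [e0, e1, ← k2] at this
    exact absurd hc (not_lt.2 this)
  refine ⟨k, k0, k1, k2, fun t ht hne => ?_⟩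
  have hnd : ¬ Desc m (fun s => D s (k t) (k (t + 1))) t := by
    intro hd
    obtain ⟨ht2, hcase⟩ := desc_cases hd
    have e0 : Function.update k (t + 1) (k t) 0 = i := by
      rw [Function.update_of_ne (by omega), k0]
    have e1 : Function.update k (t + 1) (k t) m = j := by
      rw [Function.update_of_ne (by omega), k1]
    have hcR := cost_right D m hD k ht2
    have hsp : cost D k m = (∑ t ∈ ((Finset.range m).erase t).erase (t + 1),
        D t (k t) (k (t + 1))) + D (t + 1) (k (t + 1)) (k (t + 1 + 1)) +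
          D t (k t) (k (t + 1)) := by
      unfold cost
      exact sum_split (fun t => D t (k t) (k (t + 1))) ht2
    rcases hcase with hlt | ⟨heq, hd1⟩
    · refine hno' _ e0 e1 (hcR.trans_lt ?_)
      rw [hsp] at hfin ⊢
      exact ENNReal.add_lt_add_left (ENNReal.add_ne_top.1 hfin).1 hlt
    · have heq' : D (t + 1) (k t) (k (t + 1)) = D t (k t) (k (t + 1)) := heq
      refine hno _ e0 e1 (hcR.trans ?_) ?_
      · rw [hsp, heq']
      · set k' := Function.update k (t + 1) (k t) with hk'
        have es : k' t = k t := by rw [hk', Function.update_of_ne (by omega)]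
        have es1 : k' (t + 1) = k t := by rw [hk', Function.update_self]
        have es2 : k' (t + 1 + 1) = k (t + 1 + 1) := by
          rw [hk', Function.update_of_ne (by omega)]
        unfold pot
        rw [sum_split _ ht2, sum_split (fun t => wt D m t (k t) (k (t + 1))) ht2,
          sum_rest (fun t a b => wt D m t a b), es, es1, es2, wt_self]
        by_cases hz : k (t + 1) = k (t + 1 + 1)
        · have w1 : wt D m (t + 1) (k t) (k (t + 1 + 1)) = m + 1 + (m - (t + 1)) := by
            rw [← hz]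
            exact wt_desc D m (t + 1) hne hd1
          have w2 := wt_desc D m t hne hd
          rw [w1, w2]
          omega
        · have w1 := wt_le D (m := m) (t := t + 1) ht2 (k t) (k (t + 1 + 1))
          have w2 := le_wt D m (t + 1) hz
          have w3 := le_wt D m t hne
          omega
  refine locMin_of ?_ hnd
  by_contra hcon
  push Not at hcon
  obtain ⟨ht0, hle⟩ := hcon
  obtain ⟨s, rfl⟩ : ∃ s, t = s + 1 := ⟨t - 1, by omega⟩
  have hle' : D s (k (s + 1)) (k (s + 1 + 1)) ≤ D (s + 1) (k (s + 1)) (k (s + 1 + 1)) := hle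
  have e0 : Function.update k (s + 1) (k (s + 2)) 0 = i := by
    rw [Function.update_of_ne (by omega), k0]
  have e1 : Function.update k (s + 1) (k (s + 2)) m = j := by
    rw [Function.update_of_ne (by omega), k1]
  have hcL := cost_left D m hD k ht
  have hsp : cost D k m = (∑ t ∈ ((Finset.range m).erase s).erase (s + 1),
      D t (k t) (k (t + 1))) + D s (k s) (k (s + 1)) + D (s + 1) (k (s + 1)) (k (s + 1 + 1)) := by
    unfold cost
    rw [sum_split (fun t => D t (k t) (k (t + 1))) ht]
    exact add_right_comm _ _ _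
  rcases hle'.lt_or_eq with hlt | heq
  · refine hno' _ e0 e1 (hcL.trans_lt ?_)
    rw [hsp] at hfin ⊢
    exact ENNReal.add_lt_add_left (ENNReal.add_ne_top.1 hfin).1 hlt
  · refine hno _ e0 e1 (hcL.trans ?_) ?_
    · rw [hsp]
      exact add_le_add le_rfl hle'
    · set k' := Function.update k (s + 1) (k (s + 2)) with hk'
      have es : k' s = k s := by rw [hk', Function.update_of_ne (by omega)]
      have es1 : k' (s + 1) = k (s + 2) := by rw [hk', Function.update_self]
      have es2 : k' (s + 1 + 1) = k (s + 2) := by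
        rw [hk', Function.update_of_ne (by omega)]
      unfold pot
      rw [sum_split _ ht, sum_split (fun t => wt D m t (k t) (k (t + 1))) ht,
        sum_rest (fun t a b => wt D m t a b), es, es1, es2, wt_self]
      by_cases hz : k s = k (s + 1)
      · have hnd' : ¬ Desc m (fun u => D u (k (s + 1)) (k (s + 2))) s :=
          not_desc_pred hnd heq
        have w1 : wt D m s (k s) (k (s + 2)) = m + 1 + s := by
          rw [hz]
          exact wt_not_desc D m s hne hnd'
        have w2 := wt_not_desc D m (s + 1) hne hnd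
        have w3 : wt D m s (k s) (k (s + 1)) = 0 := by rw [← hz]; exact wt_self D m s _
        rw [w1, w2, w3]
        omega
      · have w1 := wt_le D (m := m) (t := s) (by omega) (k s) (k (s + 2))
        have w2 := le_wt D m s hz
        have w3 := le_wt D m (s + 1) hne
        omega

/-! ### The word -/

open Classical in
/-- the letters of the factor `t` -/
noncomputable def letters {n : ℕ} (m : ℕ) (D : ℕ → Fin n → Fin n → ℝ≥0∞) (t : ℕ) :
    List (Fin n × Fin n × ℝ≥0∞) :=
  ((Finset.univ : Finset (Fin n × Fin n)).filter fun p =>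
    p.1 < p.2 ∧ LocMin m (fun s => D s p.1 p.2) t).toList.map fun p => (p.1, p.2, D t p.1 p.2)

/-- the word of the first `r` factors -/
noncomputable def wd {n : ℕ} (m : ℕ) (D : ℕ → Fin n → Fin n → ℝ≥0∞) :
    ℕ → List (Fin n × Fin n × ℝ≥0∞)
  | 0 => []
  | r + 1 => wd m D r ++ letters m D r

lemma mem_letters {n : ℕ} {m : ℕ} {D : ℕ → Fin n → Fin n → ℝ≥0∞} {t : ℕ}
    {c : Fin n × Fin n × ℝ≥0∞} :
    c ∈ letters m D t ↔ c.1 < c.2.1 ∧ LocMin m (fun s => D s c.1 c.2.1) t ∧
      c.2.2 = D t c.1 c.2.1 := by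
  classical
  unfold letters
  rw [List.mem_map]
  constructor
  · rintro ⟨p, hp, rfl⟩
    have h := (Finset.mem_filter.1 (Finset.mem_toList.1 hp)).2
    exact ⟨h.1, h.2, rfl⟩
  · rintro ⟨h1, h2, h3⟩
    refine ⟨(c.1, c.2.1), Finset.mem_toList.2 (Finset.mem_filter.2 ⟨Finset.mem_univ _, h1, h2⟩), ?_⟩
    obtain ⟨a, b, x⟩ := c
    simp only at h3
    simp [h3]

lemma valid_wd {n : ℕ} (m : ℕ) (D : ℕ → Fin n → Fin n → ℝ≥0∞) (r : ℕ) : Valid (wd m D r) := by
  induction r with
  | zero => intro c hc; simp [wd] at hc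
  | succ r ih =>
    intro c hc
    rcases List.mem_append.1 hc with h | h
    · exact ih c h
    · exact (mem_letters.1 h).1.ne

lemma comp_le_prod {n : ℕ} (m : ℕ) (D : ℕ → Fin n → Fin n → ℝ≥0∞)
    (hD : ∀ t < m, IsMetric (D t)) : ∀ r ≤ m, ∀ i j, comp D r i j ≤ prod (wd m D r) i j := by
  intro r
  induction r with
  | zero => intro _ i j; exact le_rfl
  | succ r ih =>
    intro hr i j
    show mul (comp D r) (D r) i j ≤ prod (wd m D r ++ letters m D r) i j
    rw [prod_append]
    refine mul_mono (ih (by omega)) (le_prod (hD r (by omega)) _ ?_) i j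
    intro c hc
    exact (mem_letters.1 hc).2.2.symm.le

lemma prod_le_cost {n : ℕ} (m : ℕ) (D : ℕ → Fin n → Fin n → ℝ≥0∞)
    (hD : ∀ t < m, IsMetric (D t)) (k : ℕ → Fin n)
    (hk : ∀ t < m, k t ≠ k (t + 1) → LocMin m (fun s => D s (k t) (k (t + 1))) t) :
    ∀ r ≤ m, prod (wd m D r) (k 0) (k r) ≤ cost D k r := by
  intro r
  induction r with
  | zero => intro _; simp [wd, prod_diag]
  | succ r ih =>
    intro hr
    show prod (wd m D r ++ letters m D r) _ _ ≤ _
    rw [prod_append]
    refine (mul_le _ _ (k 0) (k r) (k (r + 1))).trans ?_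
    unfold cost
    rw [Finset.sum_range_succ]
    refine add_le_add (ih (by omega)) ?_
    by_cases hne : k r = k (r + 1)
    · rw [← hne, prod_diag]
      exact bot_le
    · have hl := hk r (by omega) hne
      rcases lt_or_gt_of_ne hne with h | h
      · exact (prod_le_of_mem (letters m D r) (k r, k (r + 1), D r (k r) (k (r + 1)))
          (mem_letters.2 ⟨h, hl, rfl⟩)).1
      · have hsym : D r (k (r + 1)) (k r) = D r (k r) (k (r + 1)) := (hD r (by omega)).2.1 _ _
        have hl' : LocMin m (fun s => D s (k (r + 1)) (k r)) r :=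
          locMin_congr (fun t ht => (hD t ht).2.1 _ _) (by omega) hl
        have := (prod_le_of_mem (letters m D r) (k (r + 1), k r, D r (k (r + 1)) (k r))
          (mem_letters.2 ⟨h, hl', rfl⟩)).2
        exact this.trans hsym.le

lemma prod_wd {n : ℕ} (m : ℕ) (D : ℕ → Fin n → Fin n → ℝ≥0∞)
    (hD : ∀ t < m, IsMetric (D t)) : prod (wd m D m) = comp D m := by
  funext i j
  refine le_antisymm ?_ (comp_le_prod m D hD m le_rfl i j)
  by_cases h : comp D m i j = ⊤
  · rw [h]
    exact le_top
  · obtain ⟨k, k0, k1, k2, k3⟩ := key D m hD i j h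
    have := prod_le_cost m D hD k k3 m le_rfl
    rwa [k0, k1, k2] at this

/-! ### Counting -/

lemma length_wd {n : ℕ} (m : ℕ) (D : ℕ → Fin n → Fin n → ℝ≥0∞) :
    (wd m D m).length = minima m D := by
  classical
  have h1 : ∀ r, (wd m D r).length = ∑ t ∈ Finset.range r,
      ((Finset.univ : Finset (Fin n × Fin n)).filter fun p =>
        p.1 < p.2 ∧ LocMin m (fun s => D s p.1 p.2) t).card := by
    intro r
    induction r with
    | zero => simp [wd]
    | succ r ih =>
      rw [Finset.sum_range_succ, ← ih]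
      show (wd m D r ++ letters m D r).length = _
      rw [List.length_append]
      congr 1
      unfold letters
      rw [List.length_map, Finset.length_toList]
  rw [h1]
  unfold minima minCount
  simp only [Finset.card_filter, Finset.sum_filter]
  rw [Finset.sum_comm]
  refine Finset.sum_congr rfl fun p _ => ?_
  by_cases hp : p.1 < p.2
  · simp only [hp, true_and, if_true]
  · simp [hp]

lemma card_locMin_le (m : ℕ) (a : ℕ → ℝ≥0∞) [DecidablePred (LocMin m a)] :
    ((Finset.range m).filter (LocMin m a)).card ≤ (m + 1) / 2 := by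
  have h : ∀ t, LocMin m a t → LocMin m a (t + 1) → t + 1 < m → False := by
    intro t h1 h2 h3
    have h4 : a t ≤ a (t + 1) := h1.2 (t + 1) (by omega) h3 fun u hu1 hu2 => by
      rw [show u = t by omega]
    rcases h2.1 with h5 | h5
    · omega
    · exact absurd h5 (not_lt.2 (by simpa using h4))
  calc ((Finset.range m).filter (LocMin m a)).card
      ≤ (Finset.range ((m + 1) / 2)).card := by
        refine Finset.card_le_card_of_injOn (fun t => t / 2) ?_ ?_
        · intro t ht
          have ht' := (Finset.mem_filter.1 ht).1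
          rw [Finset.mem_range] at ht'
          simp only [Finset.coe_range, Set.mem_Iio]
          omega
        · intro t ht t' ht' he
          have a1 := Finset.mem_filter.1 (Finset.mem_coe.1 ht)
          have a2 := Finset.mem_filter.1 (Finset.mem_coe.1 ht')
          have b1 := Finset.mem_range.1 a1.1
          have b2 := Finset.mem_range.1 a2.1
          have he' : t / 2 = t' / 2 := he
          rcases lt_trichotomy t t' with hlt | heq | hlt
          · have : t' = t + 1 := by omega
            subst this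
            exact (h t a1.2 a2.2 b2).elim
          · exact heq
          · have : t = t' + 1 := by omega
            subst this
            exact (h t' a2.2 a1.2 b1).elim
    _ = (m + 1) / 2 := Finset.card_range _

lemma card_pairs (n : ℕ) :
    ((Finset.univ : Finset (Fin n × Fin n)).filter fun p => p.1 < p.2).card = n.choose 2 := by
  rw [Finset.card_filter, Fintype.sum_prod_type_right]
  have : ∀ j : Fin n, (∑ i : Fin n, if i < j then 1 else 0) = (j : ℕ) := by
    intro j
    rw [← Finset.card_filter]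
    have : (Finset.univ.filter fun i : Fin n => i < j) = Finset.Iio j := by
      ext i; simp
    rw [this, Fin.card_Iio]
  rw [Finset.sum_congr rfl fun j _ => this j, Fin.sum_univ_eq_sum_range (fun i => i) n,
    Finset.sum_range_id, Nat.choose_two_right]

lemma minCount_le (m : ℕ) (a : ℕ → ℝ≥0∞) : minCount m a ≤ (m + 1) / 2 := by
  classical
  unfold minCount
  convert card_locMin_le m a

lemma valley_unique {m : ℕ} {a : ℕ → ℝ≥0∞} (h : Valley m a) {t t' : ℕ} (ht : LocMin m a t)
    (ht' : LocMin m a t') (hlt : t < t') (htm : t' < m) : False := by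
  obtain ⟨s, hs⟩ := h
  obtain ⟨r, rfl⟩ : ∃ r, t' = r + 1 := ⟨t' - 1, by omega⟩
  have h1 : a (r + 1) < a r := by simpa using ht'.1.resolve_left (by omega)
  rcases lt_or_ge r s with hr | hr
  · have hall : ∀ u, t ≤ u → u ≤ r + 1 → a u = a t := by
      intro u
      induction u using Nat.strong_induction_on with
      | _ u ih =>
        intro hu1 hu2
        rcases eq_or_lt_of_le hu1 with he | hu3
        · rw [he]
        · refine le_antisymm ?_ (ht.2 u hu3 (by omega) fun v hv1 hv2 => ih v hv2 hv1 (by omega))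
          obtain ⟨v, rfl⟩ : ∃ v, u = v + 1 := ⟨u - 1, by omega⟩
          rw [← ih v (by omega) (by omega) (by omega)]
          exact (hs v (by omega)).1 (by omega)
    rw [hall (r + 1) (by omega) le_rfl, hall r (by omega) (by omega)] at h1
    exact lt_irrefl _ h1
  · exact absurd h1 (not_lt.2 ((hs r htm).2 hr))

lemma minCount_le_one {m : ℕ} {a : ℕ → ℝ≥0∞} (h : Valley m a) : minCount m a ≤ 1 := by
  classical
  unfold minCount
  refine Finset.card_le_one.2 fun t ht t' ht' => ?_
  have a1 := Finset.mem_filter.1 ht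
  have a2 := Finset.mem_filter.1 ht'
  have b1 := Finset.mem_range.1 a1.1
  have b2 := Finset.mem_range.1 a2.1
  rcases lt_trichotomy t t' with hlt | heq | hlt
  · exact (valley_unique h a1.2 a2.2 hlt b2).elim
  · exact heq
  · exact (valley_unique h a2.2 a1.2 hlt b1).elim

lemma minCount_congr {m : ℕ} {a b : ℕ → ℝ≥0∞} (h : ∀ t < m, a t = b t) :
    minCount m a = minCount m b := by
  classical
  unfold minCount
  congr 1
  apply Finset.filter_congr
  intro t ht
  rw [Finset.mem_range] at ht
  exact ⟨locMin_congr h ht, locMin_congr (fun u hu => (h u hu).symm) ht⟩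

lemma minima_le_of {n : ℕ} (m : ℕ) (D : ℕ → Fin n → Fin n → ℝ≥0∞) {c : ℕ}
    (hc : ∀ i j, i ≠ j → minCount m (fun t => D t i j) ≤ c) :
    minima m D ≤ c * n.choose 2 := by
  unfold minima
  refine (Finset.sum_le_card_nsmul _ _ c fun p hp => ?_).trans ?_
  · exact hc _ _ (Finset.mem_filter.1 hp).2.ne
  · rw [card_pairs, smul_eq_mul, Nat.mul_comm]

/-! ### Three distance matrices -/

lemma prod_eq {n : ℕ} (w : List (Fin n × Fin n × ℝ≥0∞)) : prod w = Gossip.prod w := by
  induction w with
  | nil => rfl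
  | cons c w ih =>
    show mul (call c.1 c.2.1 c.2.2) (prod w) = _
    rw [ih]
    rfl

lemma three' {n : ℕ} {A B C : Fin n → Fin n → ℝ≥0∞} (hA : IsMetric A) (hB : IsMetric B)
    (hC : IsMetric C) : ∃ w : List (Fin n × Fin n × ℝ≥0∞), Valid w ∧ w.length ≤ n.choose 2 ∧
      prod w = mul (mul A B) C := by
  have hD : ∀ t : ℕ, IsMetric (if t = 0 then A else if t = 1 then B else C) := by
    intro t
    split_ifs
    · exact hA
    · exact hB
    · exact hC
  obtain ⟨w, h1, h2, h3⟩ := Gossip.three (fun t : ℕ => if t = 0 then A else if t = 1 then B else C)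
    (fun t => (hD t).1) (fun t => (hD t).2.1) (fun t => (hD t).2.2)
  refine ⟨w, h1, h2, ?_⟩
  rw [prod_eq, h3]
  rfl

/-- the tropical identity matrix is a distance matrix -/
lemma isMetric_one {n : ℕ} : IsMetric (prod ([] : List (Fin n × Fin n × ℝ≥0∞))) := by
  refine ⟨fun i => if_pos rfl, fun i j => ?_, fun i j k => ?_⟩
  · show (if i = j then (0 : ℝ≥0∞) else ⊤) = if j = i then 0 else ⊤
    simp only [eq_comm]
  · show (if i = k then (0 : ℝ≥0∞) else ⊤) ≤ (if i = j then 0 else ⊤) + if j = k then 0 else ⊤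
    split_ifs with h1 h2 h3 h3 <;> simp_all

lemma mul_one'' {n : ℕ} (A : Fin n → Fin n → ℝ≥0∞) : mul A (prod []) = A :=
  Gossip.mul_one' A

/-- a product of `m` distance matrices as a product of at most `⌈m / 3⌉ * n.choose 2` calls -/
lemma third {n : ℕ} (m : ℕ) : ∀ (D : ℕ → Fin n → Fin n → ℝ≥0∞), (∀ t < m, IsMetric (D t)) →
    ∃ w : List (Fin n × Fin n × ℝ≥0∞), Valid w ∧ w.length ≤ (m + 2) / 3 * n.choose 2 ∧
      prod w = comp D m := by
  induction m using Nat.strong_induction_on with
  | _ m ih =>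
    intro D hD
    match m, ih, hD with
    | 0, _, _ => exact ⟨[], fun c hc => absurd hc List.not_mem_nil, by simp, rfl⟩
    | 1, _, hD =>
      obtain ⟨w, h1, h2, h3⟩ := three' (isMetric_one (n := n)) (hD 0 (by omega)) isMetric_one
      exact ⟨w, h1, by simpa using h2, by rw [h3, mul_one'']; rfl⟩
    | 2, _, hD =>
      obtain ⟨w, h1, h2, h3⟩ := three' (isMetric_one (n := n)) (hD 0 (by omega)) (hD 1 (by omega))
      exact ⟨w, h1, by simpa using h2, by rw [h3]; rfl⟩
    | m + 3, ih, hD =>
      obtain ⟨w, h1, h2, h3⟩ := ih m (by omega) D fun t ht => hD t (by omega)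
      obtain ⟨w', h1', h2', h3'⟩ := three' (hD m (by omega)) (hD (m + 1) (by omega))
        (hD (m + 2) (by omega))
      refine ⟨w ++ w', ?_, ?_, ?_⟩
      · intro c hc
        rcases List.mem_append.1 hc with hc | hc
        · exact h1 c hc
        · exact h1' c hc
      · rw [List.length_append]
        have e : (m + 3 + 2) / 3 = (m + 2) / 3 + 1 := by omega
        rw [e, Nat.add_mul, Nat.one_mul]
        omega
      · rw [prod_append, h3, h3', ← mul_assoc', ← mul_assoc']
        rfl

/-- **Products of metrics.** Every min-plus product of `m` distance matrices `D 0`, …,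
`D (m - 1)` is a product of at most `⌈m / 3⌉ * n.choose 2` lossy phone calls; so the product of
up to three distance matrices is a product of at most `n.choose 2` calls. It is also a product of
at most as many calls as the sequences `D 0 i j`, …, `D (m - 1) i j` of the pairs `i < j` have
local minima altogether (a block of equal terms counted once); so if all these sequences first
fall and then rise, it is a product of at most `n.choose 2` calls. -/
theorem result (n m : ℕ) (D : ℕ → Fin n → Fin n → ℝ≥0∞) (hD : ∀ t < m, IsMetric (D t)) :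
    ∃ w : List (Fin n × Fin n × ℝ≥0∞), Valid w ∧ prod w = comp D m ∧
      w.length ≤ (m + 2) / 3 * n.choose 2 ∧ w.length ≤ minima m D ∧
      ((∀ i j, i ≠ j → Valley m (fun t => D t i j)) → w.length ≤ n.choose 2) := by
  have hV : (∀ i j, i ≠ j → Valley m (fun t => D t i j)) → minima m D ≤ n.choose 2 := by
    intro hV
    refine (minima_le_of m D (c := 1) fun i j hij => minCount_le_one (hV i j hij)).trans ?_
    rw [one_mul]
  obtain ⟨w, h1, h3, h2⟩ := third m D hD
  rcases le_total w.length (minima m D) with h | h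
  · exact ⟨w, h1, h2, h3, h, fun h4 => h.trans (hV h4)⟩
  · refine ⟨wd m D m, valid_wd m D m, prod_wd m D hD, ?_, ?_, fun h4 => ?_⟩
    · rw [length_wd]
      exact h.trans h3
    · rw [length_wd]
    · rw [length_wd]
      exact hV h4

end Pool.Agent.Results.MP_8f6a89_co.MetricProduct
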