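import Mathlib

/-!
# MP_8f6a89_co: the length bound for star networks

If all the calls of a product of lossy phone calls involve one fixed person `z`, then the product
is a product of at most `n.choose 2` lossy phone calls.
-/

set_option autoImplicit false

namespace Pool.Agent.Results.MP_8f6a89_co.StarNetwork

open scoped ENNReal

/-- The min-plus product of two `n × n` matrices with entries in `[0, ∞]`. -/
noncomputable def mul {n : ℕ} (A B : Fin n → Fin n → ℝ≥0∞) : Fin n → Fin n → ℝ≥0∞ :=
  fun i j => ⨅ m, A i m + B m j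

/-- The lossy phone call matrix `C_kl(a)`. -/
noncomputable def call {n : ℕ} (k l : Fin n) (a : ℝ≥0∞) : Fin n → Fin n → ℝ≥0∞ :=
  fun i j => if i = j then 0 else if (i = k ∧ j = l) ∨ (i = l ∧ j = k) then a else ⊤

/-- The min-plus product of the calls of a list of triples `(k, l, a)`, in this order; the empty
product is the tropical identity matrix. -/
noncomputable def prod {n : ℕ} : List (Fin n × Fin n × ℝ≥0∞) → Fin n → Fin n → ℝ≥0∞
  | [] => fun i j => if i = j then 0 else ⊤
  | c :: w => mul (call c.1 c.2.1 c.2.2) (prod w)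

variable {n : ℕ}

lemma prod_cons (c : Fin n × Fin n × ℝ≥0∞) (w : List (Fin n × Fin n × ℝ≥0∞)) (i j : Fin n) :
    prod (c :: w) i j = ⨅ m, call c.1 c.2.1 c.2.2 i m + prod w m j := rfl

lemma prod_nil (i j : Fin n) : prod [] i j = if i = j then 0 else ⊤ := rfl

lemma call_self (k l : Fin n) (a : ℝ≥0∞) (i : Fin n) : call k l a i i = 0 := by
  simp [call]

lemma call_swap (k l : Fin n) (a : ℝ≥0∞) (i j : Fin n) : call k l a i j = call k l a j i := by
  unfold call
  by_cases h : i = j
  · simp [h]
  · rw [if_neg h, if_neg (Ne.symm h)]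
    have : ((i = k ∧ j = l) ∨ (i = l ∧ j = k)) ↔ ((j = k ∧ i = l) ∨ (j = l ∧ i = k)) := by tauto
    simp only [this]

lemma call_comm (k l : Fin n) (a : ℝ≥0∞) : call k l a = call l k a := by
  funext i j
  unfold call
  by_cases h : i = j
  · simp [h]
  · rw [if_neg h, if_neg h]
    have : ((i = k ∧ j = l) ∨ (i = l ∧ j = k)) ↔ ((i = l ∧ j = k) ∨ (i = k ∧ j = l)) := by tauto
    simp only [this]

lemma cons_le (c : Fin n × Fin n × ℝ≥0∞) (w : List (Fin n × Fin n × ℝ≥0∞)) (i m j : Fin n) :
    prod (c :: w) i j ≤ call c.1 c.2.1 c.2.2 i m + prod w m j := by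
  rw [prod_cons]
  exact iInf_le _ m

lemma cons_le_self (c : Fin n × Fin n × ℝ≥0∞) (w : List (Fin n × Fin n × ℝ≥0∞)) (i j : Fin n) :
    prod (c :: w) i j ≤ prod w i j := by
  have := cons_le c w i i j
  rwa [call_self, zero_add] at this

/-- lower bounds for an entry of a product -/
lemma le_cons {c : Fin n × Fin n × ℝ≥0∞} {w : List (Fin n × Fin n × ℝ≥0∞)} {i j : Fin n}
    {x : ℝ≥0∞} (h1 : x ≤ prod w i j) (h2 : i = c.1 → x ≤ c.2.2 + prod w c.2.1 j)
    (h3 : i = c.2.1 → x ≤ c.2.2 + prod w c.1 j) : x ≤ prod (c :: w) i j := by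
  rw [prod_cons]
  refine le_iInf fun m => ?_
  unfold call
  by_cases h : i = m
  · subst h
    simpa using h1
  · rw [if_neg h]
    by_cases h' : (i = c.1 ∧ m = c.2.1) ∨ (i = c.2.1 ∧ m = c.1)
    · rw [if_pos h']
      rcases h' with ⟨h4, rfl⟩ | ⟨h4, rfl⟩
      · exact h2 h4
      · exact h3 h4
    · rw [if_neg h', top_add]
      exact le_top

lemma cons_cases (c : Fin n × Fin n × ℝ≥0∞) (w : List (Fin n × Fin n × ℝ≥0∞)) (i j : Fin n) :
    prod (c :: w) i j = prod w i j ∨ (i = c.1 ∧ prod (c :: w) i j = c.2.2 + prod w c.2.1 j) ∨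
      (i = c.2.1 ∧ prod (c :: w) i j = c.2.2 + prod w c.1 j) := by
  have : Nonempty (Fin n) := ⟨i⟩
  obtain ⟨m, hm⟩ := exists_eq_ciInf_of_finite (f := fun m => call c.1 c.2.1 c.2.2 i m + prod w m j)
  rw [← prod_cons] at hm
  unfold call at hm
  by_cases h : i = m
  · subst h
    left
    rw [← hm]
    simp
  · rw [if_neg h] at hm
    by_cases h' : (i = c.1 ∧ m = c.2.1) ∨ (i = c.2.1 ∧ m = c.1)
    · rw [if_pos h'] at hm
      rcases h' with ⟨h4, rfl⟩ | ⟨h4, rfl⟩
      · exact Or.inr (Or.inl ⟨h4, hm.symm⟩)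
      · exact Or.inr (Or.inr ⟨h4, hm.symm⟩)
    · rw [if_neg h', top_add] at hm
      left
      have := cons_le_self c w i j
      rw [← hm] at this
      rw [← hm]
      exact (top_le_iff.1 this).symm

lemma sub_le {u w : List (Fin n × Fin n × ℝ≥0∞)} (h : u.Sublist w) (i j : Fin n) :
    prod w i j ≤ prod u i j := by
  induction h generalizing i with
  | slnil => exact le_rfl
  | cons a _ ih => exact (cons_le_self _ _ _ _).trans (ih i)
  | cons_cons a _ ih =>
    rw [prod_cons, prod_cons]
    exact iInf_mono fun m => add_le_add le_rfl (ih m)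

lemma diag_zero (w : List (Fin n × Fin n × ℝ≥0∞)) (i : Fin n) : prod w i i = 0 := by
  have := sub_le (List.nil_sublist w) i i
  rw [prod_nil, if_pos rfl] at this
  exact le_antisymm this zero_le

lemma append_le (u w : List (Fin n × Fin n × ℝ≥0∞)) (i m j : Fin n) :
    prod (u ++ w) i j ≤ prod u i m + prod w m j := by
  induction u generalizing i with
  | nil =>
    rw [List.nil_append, prod_nil]
    by_cases h : i = m
    · subst h; simp
    · rw [if_neg h, top_add]; exact le_top
  | cons c u ih =>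
    rw [List.cons_append]
    rcases cons_cases c u i m with h | ⟨h1, h⟩ | ⟨h1, h⟩
    · rw [h]
      exact (cons_le_self _ _ _ _).trans (ih i)
    · rw [h, add_assoc]
      have h2 := cons_le c (u ++ w) i c.2.1 j
      refine h2.trans (add_le_add ?_ (ih _))
      unfold call
      split_ifs with h3 h4
      · exact zero_le
      · exact le_rfl
      · exact absurd (Or.inl ⟨h1, rfl⟩) h4
    · rw [h, add_assoc]
      have h2 := cons_le c (u ++ w) i c.1 j
      refine h2.trans (add_le_add ?_ (ih _))
      unfold call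
      split_ifs with h3 h4
      · exact zero_le
      · exact le_rfl
      · exact absurd (Or.inr ⟨h1, rfl⟩) h4

lemma le_append (u w : List (Fin n × Fin n × ℝ≥0∞)) (i j : Fin n) :
    ∃ m, prod u i m + prod w m j ≤ prod (u ++ w) i j := by
  induction u generalizing i with
  | nil => exact ⟨i, by rw [prod_nil]; simp⟩
  | cons c u ih =>
    rw [List.cons_append]
    rcases cons_cases c (u ++ w) i j with h | ⟨h1, h⟩ | ⟨h1, h⟩
    · obtain ⟨m, hm⟩ := ih i
      exact ⟨m, by rw [h]; exact (add_le_add (cons_le_self _ _ _ _) le_rfl).trans hm⟩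
    · obtain ⟨m, hm⟩ := ih c.2.1
      refine ⟨m, ?_⟩
      rw [h]
      refine le_trans ?_ (add_le_add le_rfl hm)
      rw [← add_assoc]
      refine add_le_add ((cons_le c u i c.2.1 m).trans (add_le_add ?_ le_rfl)) le_rfl
      unfold call
      split_ifs with h3 h4
      · exact zero_le
      · exact le_rfl
      · exact absurd (Or.inl ⟨h1, rfl⟩) h4
    · obtain ⟨m, hm⟩ := ih c.1
      refine ⟨m, ?_⟩
      rw [h]
      refine le_trans ?_ (add_le_add le_rfl hm)
      rw [← add_assoc]
      refine add_le_add ((cons_le c u i c.1 m).trans (add_le_add ?_ le_rfl)) le_rfl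
      unfold call
      split_ifs with h3 h4
      · exact zero_le
      · exact le_rfl
      · exact absurd (Or.inr ⟨h1, rfl⟩) h4

lemma prod_single (c : Fin n × Fin n × ℝ≥0∞) : prod [c] = call c.1 c.2.1 c.2.2 := by
  funext i j
  apply le_antisymm
  · have := cons_le c [] i j j
    rwa [prod_nil, if_pos rfl, add_zero] at this
  · rw [prod_cons]
    refine le_iInf fun m => ?_
    rw [prod_nil]
    split_ifs with h
    · subst h; simp
    · rw [add_top]; exact le_top

lemma prod_reverse (w : List (Fin n × Fin n × ℝ≥0∞)) (i j : Fin n) :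
    prod w.reverse i j = prod w j i := by
  induction w generalizing i j with
  | nil =>
    rw [List.reverse_nil, prod_nil, prod_nil]
    simp only [eq_comm]
  | cons c w ih =>
    rw [List.reverse_cons]
    apply le_antisymm
    · rw [prod_cons]
      refine le_iInf fun m => ?_
      refine (append_le _ _ i m j).trans ?_
      rw [ih, prod_single, call_swap, add_comm]
    · obtain ⟨m, hm⟩ := le_append w.reverse [c] i j
      refine le_trans ?_ hm
      rw [ih, prod_single, call_swap, add_comm]
      exact cons_le c w j m i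

lemma cons_le_left (c : Fin n × Fin n × ℝ≥0∞) (w : List (Fin n × Fin n × ℝ≥0∞)) (j : Fin n) :
    prod (c :: w) c.1 j ≤ c.2.2 + prod w c.2.1 j := by
  refine (cons_le c w c.1 c.2.1 j).trans (add_le_add ?_ le_rfl)
  unfold call
  split_ifs with h3 h4
  · exact zero_le
  · exact le_rfl
  · exact absurd (Or.inl ⟨rfl, rfl⟩) h4

lemma cons_le_right (c : Fin n × Fin n × ℝ≥0∞) (w : List (Fin n × Fin n × ℝ≥0∞)) (j : Fin n) :
    prod (c :: w) c.2.1 j ≤ c.2.2 + prod w c.1 j := by
  refine (cons_le c w c.2.1 c.1 j).trans (add_le_add ?_ le_rfl)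
  unfold call
  split_ifs with h3 h4
  · exact zero_le
  · exact le_rfl
  · exact absurd (Or.inr ⟨rfl, rfl⟩) h4

/-- everything that leaves a person passes the centre -/
def QR (z : Fin n) (V : List (Fin n × Fin n × ℝ≥0∞)) : Prop :=
  ∀ m l, m ≠ l → prod V z l ≤ prod V m l

lemma QR_nil (z : Fin n) : QR z [] := by
  intro m l h
  rw [prod_nil, prod_nil, if_neg h]
  exact le_top

lemma QR_star (z : Fin n) (c : Fin n × Fin n × ℝ≥0∞) (V : List (Fin n × Fin n × ℝ≥0∞))
    (hc : c.1 = z) (hV : QR z V) : QR z (c :: V) := by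
  subst hc
  intro m l hml
  refine le_cons ?_ ?_ ?_
  · exact (cons_le_self _ _ _ _).trans (hV m l hml)
  · rintro rfl
    exact cons_le_left c V l
  · rintro rfl
    exact (cons_le_self _ _ _ _).trans le_add_self

lemma QR_direct (z i j : Fin n) (b : ℝ≥0∞) (V : List (Fin n × Fin n × ℝ≥0∞))
    (hi : prod V z i ≤ b) (hj : prod V z j ≤ b) (hV : QR z V) : QR z ((i, j, b) :: V) := by
  intro m l hml
  refine le_cons ?_ ?_ ?_
  · exact (cons_le_self _ _ _ _).trans (hV m l hml)
  · intro _
    refine (cons_le_self _ _ _ _).trans ?_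
    by_cases h : j = l
    · subst h
      exact hj.trans le_self_add
    · exact (hV j l h).trans le_add_self
  · intro _
    refine (cons_le_self _ _ _ _).trans ?_
    by_cases h : i = l
    · subst h
      exact hi.trans le_self_add
    · exact (hV i l h).trans le_add_self

lemma QR_of_star (z : Fin n) (V : List (Fin n × Fin n × ℝ≥0∞)) (hV : ∀ c ∈ V, c.1 = z) :
    QR z V := by
  induction V with
  | nil => exact QR_nil z
  | cons c V ih =>
    exact QR_star z c V (hV c (by simp)) (ih fun d hd => hV d (by simp [hd]))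

/-- everything that reaches a person passes the centre -/
lemma QL_of_star (z : Fin n) (U : List (Fin n × Fin n × ℝ≥0∞)) (hU : ∀ c ∈ U, c.1 = z)
    (k m : Fin n) (h : k ≠ m) : prod U k z ≤ prod U k m := by
  rw [← prod_reverse U z k, ← prod_reverse U m k]
  exact QR_of_star z U.reverse (fun c hc => hU c (List.mem_reverse.1 hc)) m k (Ne.symm h)

lemma insert_direct (z : Fin n) (U V : List (Fin n × Fin n × ℝ≥0∞)) (i j : Fin n)
    (c α β : ℝ≥0∞) (hL : ∀ k m, k ≠ m → prod U k z ≤ prod U k m) (hR : QR z V)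
    (h1 : prod U i z ≤ α) (h2 : prod V z i ≤ α) (h3 : prod U j z ≤ β) (h4 : prod V z j ≤ β)
    (hc : α + β ≤ c) : prod (U ++ (i, j, c) :: V) = prod (U ++ V) := by
  have hLi : ∀ k, prod U k z ≤ prod U k i + α := by
    intro k
    by_cases h : k = i
    · subst h
      exact h1.trans le_add_self
    · exact (hL k i h).trans le_self_add
  have hLj : ∀ k, prod U k z ≤ prod U k j + β := by
    intro k
    by_cases h : k = j
    · subst h
      exact h3.trans le_add_self
    · exact (hL k j h).trans le_self_add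
  have hRi : ∀ l, prod V z l ≤ α + prod V i l := by
    intro l
    by_cases h : i = l
    · subst h
      exact h2.trans le_self_add
    · exact (hR i l h).trans le_add_self
  have hRj : ∀ l, prod V z l ≤ β + prod V j l := by
    intro l
    by_cases h : j = l
    · subst h
      exact h4.trans le_self_add
    · exact (hR j l h).trans le_add_self
  funext k l
  apply le_antisymm
  · exact sub_le (List.Sublist.append_left (List.sublist_cons_self _ _) U) k l
  · obtain ⟨m, hm⟩ := le_append U ((i, j, c) :: V) k l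
    refine le_trans ?_ hm
    rcases cons_cases (i, j, c) V m l with h | ⟨h5, h⟩ | ⟨h5, h⟩
    · rw [h]
      exact append_le U V k m l
    · rw [h]
      simp only at h5 ⊢
      subst h5
      calc prod (U ++ V) k l ≤ prod U k z + prod V z l := append_le U V k z l
        _ ≤ (prod U k m + α) + (β + prod V j l) := add_le_add (hLi k) (hRj l)
        _ = prod U k m + ((α + β) + prod V j l) := by ring
        _ ≤ prod U k m + (c + prod V j l) := by gcongr
    · rw [h]
      simp only at h5 ⊢
      subst h5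
      calc prod (U ++ V) k l ≤ prod U k z + prod V z l := append_le U V k z l
        _ ≤ (prod U k m + β) + (α + prod V i l) := add_le_add (hLj k) (hRi l)
        _ = prod U k m + ((α + β) + prod V i l) := by ring
        _ ≤ prod U k m + (c + prod V i l) := by gcongr

/-- the cost of the direct call between `i` and `j` -/
noncomputable def dc (z : Fin n) (u v : List (Fin n × Fin n × ℝ≥0∞)) (i j : Fin n) : ℝ≥0∞ :=
  max (prod u i z) (prod v z i) + max (prod u j z) (prod v z j)

/-- the word with all direct calls inserted -/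
noncomputable def full (z : Fin n) (prs : List (Fin n × Fin n)) :
    List (Fin n × Fin n × ℝ≥0∞) → List (Fin n × Fin n × ℝ≥0∞) → List (Fin n × Fin n × ℝ≥0∞)
  | _, [] => []
  | u, c :: v => prs.map (fun p => (p.1, p.2, dc z u (c :: v) p.1 p.2)) ++
      c :: full z prs (u ++ [c]) v

lemma full_cons (z : Fin n) (prs : List (Fin n × Fin n)) (u : List (Fin n × Fin n × ℝ≥0∞))
    (c : Fin n × Fin n × ℝ≥0∞) (v : List (Fin n × Fin n × ℝ≥0∞)) :
    full z prs u (c :: v) = prs.map (fun p => (p.1, p.2, dc z u (c :: v) p.1 p.2)) ++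
      c :: full z prs (u ++ [c]) v := rfl

lemma sub_full (z : Fin n) (prs : List (Fin n × Fin n)) (u v : List (Fin n × Fin n × ℝ≥0∞)) :
    v.Sublist (full z prs u v) := by
  induction v generalizing u with
  | nil => exact List.nil_sublist _
  | cons c v ih =>
    rw [full_cons]
    exact ((ih (u ++ [c])).cons_cons c).trans (List.sublist_append_right _ _)

lemma block_QR (z : Fin n) (prs : List (Fin n × Fin n)) (u v W : List (Fin n × Fin n × ℝ≥0∞))
    (hW : QR z W) (hs : v.Sublist W) :
    QR z (prs.map (fun p => (p.1, p.2, dc z u v p.1 p.2)) ++ W) := by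
  induction prs with
  | nil => simpa using hW
  | cons p ps ih =>
    rw [List.map_cons, List.cons_append]
    have hs' : v.Sublist (ps.map (fun p => (p.1, p.2, dc z u v p.1 p.2)) ++ W) :=
      hs.trans (List.sublist_append_right _ _)
    refine QR_direct z p.1 p.2 _ _ ?_ ?_ ih
    · exact (sub_le hs' z p.1).trans ((le_max_right _ _).trans le_self_add)
    · exact (sub_le hs' z p.2).trans ((le_max_right _ _).trans le_add_self)

lemma block_prod (z : Fin n) (prs : List (Fin n × Fin n)) (u v W : List (Fin n × Fin n × ℝ≥0∞))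
    (hu : ∀ c ∈ u, c.1 = z) (hW : QR z W) (hs : v.Sublist W) :
    prod (u ++ (prs.map (fun p => (p.1, p.2, dc z u v p.1 p.2)) ++ W)) = prod (u ++ W) := by
  induction prs with
  | nil => simp
  | cons p ps ih =>
    rw [List.map_cons, List.cons_append, ← ih]
    have hs' : v.Sublist (ps.map (fun p => (p.1, p.2, dc z u v p.1 p.2)) ++ W) :=
      hs.trans (List.sublist_append_right _ _)
    refine insert_direct z u _ p.1 p.2 _ (max (prod u p.1 z) (prod v z p.1))
      (max (prod u p.2 z) (prod v z p.2)) (QL_of_star z u hu) (block_QR z ps u v W hW hs)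
      (le_max_left _ _) ?_ (le_max_left _ _) ?_ le_rfl
    · exact (sub_le hs' z p.1).trans (le_max_right _ _)
    · exact (sub_le hs' z p.2).trans (le_max_right _ _)

lemma full_QR (z : Fin n) (prs : List (Fin n × Fin n)) (u v : List (Fin n × Fin n × ℝ≥0∞))
    (hv : ∀ c ∈ v, c.1 = z) : QR z (full z prs u v) := by
  induction v generalizing u with
  | nil => exact QR_nil z
  | cons c v ih =>
    rw [full_cons]
    refine block_QR z prs u (c :: v) _ ?_ ?_
    · exact QR_star z c _ (hv c (by simp)) (ih _ fun d hd => hv d (by simp [hd]))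
    · exact (sub_full z prs (u ++ [c]) v).cons_cons c

lemma full_prod (z : Fin n) (prs : List (Fin n × Fin n)) (u v : List (Fin n × Fin n × ℝ≥0∞))
    (hu : ∀ c ∈ u, c.1 = z) (hv : ∀ c ∈ v, c.1 = z) :
    prod (u ++ full z prs u v) = prod (u ++ v) := by
  induction v generalizing u with
  | nil => rfl
  | cons c v ih =>
    have hv' : ∀ d ∈ v, d.1 = z := fun d hd => hv d (by simp [hd])
    rw [full_cons, block_prod z prs u (c :: v) _ hu
      (QR_star z c _ (hv c (by simp)) (full_QR z prs _ v hv'))
      ((sub_full z prs (u ++ [c]) v).cons_cons c)]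
    have h := ih (u ++ [c]) (by
      intro d hd
      rcases List.mem_append.1 hd with h | h
      · exact hu d h
      · rw [List.mem_singleton] at h
        subst h
        exact hv d (by simp)) hv'
    simpa using h

lemma mem_full (z : Fin n) (prs : List (Fin n × Fin n)) (p : Fin n × Fin n) (hp : p ∈ prs)
    (c : Fin n × Fin n × ℝ≥0∞) (v2 v1 u : List (Fin n × Fin n × ℝ≥0∞)) :
    (p.1, p.2, dc z (u ++ v1) (c :: v2) p.1 p.2) ∈ full z prs u (v1 ++ c :: v2) := by
  induction v1 generalizing u with
  | nil =>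
    rw [List.nil_append, full_cons, List.append_nil, List.mem_append]
    left
    exact List.mem_map.2 ⟨p, hp, rfl⟩
  | cons d v1 ih =>
    rw [List.cons_append, full_cons, List.mem_append]
    right
    have := ih (u ++ [d])
    rw [List.append_assoc] at this
    exact List.mem_cons_of_mem _ (by simpa using this)

lemma full_valid (z : Fin n) (prs : List (Fin n × Fin n)) (hprs : ∀ p ∈ prs, p.1 ≠ p.2)
    (u v : List (Fin n × Fin n × ℝ≥0∞)) (hv : ∀ c ∈ v, c.1 ≠ c.2.1) :
    ∀ c ∈ full z prs u v, c.1 ≠ c.2.1 := by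
  induction v generalizing u with
  | nil => intro c hc; simp [full] at hc
  | cons d v ih =>
    intro c hc
    rw [full_cons, List.mem_append] at hc
    rcases hc with hc | hc
    · obtain ⟨p, hp, rfl⟩ := List.mem_map.1 hc
      exact hprs p hp
    · rcases List.mem_cons.1 hc with rfl | hc
      · exact hv c (by simp)
      · exact ih _ (fun d hd => hv d (by simp [hd])) c hc

lemma attain (z : Fin n) (v : List (Fin n × Fin n × ℝ≥0∞))
    (hv : ∀ c ∈ v, c.1 = z ∧ c.2.1 ≠ z) :
    (∀ j, j ≠ z → prod v z j ≠ ⊤ → ∃ c ∈ v, c.2.1 = j ∧ c.2.2 ≤ prod v z j) ∧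
    (∀ j, j ≠ z → prod v j z ≠ ⊤ → ∃ c ∈ v, c.2.1 = j ∧ c.2.2 ≤ prod v j z) ∧
    (∀ i j, i ≠ z → j ≠ z → i ≠ j → prod v i j ≠ ⊤ →
      ∃ c d, [c, d].Sublist v ∧ c.2.1 = i ∧ d.2.1 = j ∧ c.2.2 + d.2.2 ≤ prod v i j) := by
  induction v with
  | nil =>
    refine ⟨?_, ?_, ?_⟩
    · intro j hj h
      rw [prod_nil, if_neg (Ne.symm hj)] at h
      exact absurd rfl h
    · intro j hj h
      rw [prod_nil, if_neg hj] at h
      exact absurd rfl h
    · intro i j _ _ hij h
      rw [prod_nil, if_neg hij] at h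
      exact absurd rfl h
  | cons e v ih =>
    obtain ⟨ih1, ih2, ih3⟩ := ih fun c hc => hv c (by simp [hc])
    obtain ⟨he1, he2⟩ := hv e (by simp)
    refine ⟨?_, ?_, ?_⟩
    · intro j hj h
      rcases cons_cases e v z j with h1 | ⟨h1, h2⟩ | ⟨h1, h2⟩
      · rw [h1] at h ⊢
        obtain ⟨c, hc, h3, h4⟩ := ih1 j hj h
        exact ⟨c, by simp [hc], h3, h4⟩
      · rw [h2] at h ⊢
        by_cases hx : e.2.1 = j
        · exact ⟨e, by simp, hx, le_self_add⟩
        · have h5 : prod v e.2.1 j ≠ ⊤ := fun h6 => h (by rw [h6, add_top])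
          obtain ⟨c, d, hcd, h6, h7, h8⟩ := ih3 e.2.1 j he2 hj hx h5
          refine ⟨d, ?_, h7, (le_add_self.trans h8).trans le_add_self⟩
          have : d ∈ v := hcd.subset (by simp)
          simp [this]
      · exact absurd h1.symm he2
    · intro j hj h
      rcases cons_cases e v j z with h1 | ⟨h1, h2⟩ | ⟨h1, h2⟩
      · rw [h1] at h ⊢
        obtain ⟨c, hc, h3, h4⟩ := ih2 j hj h
        exact ⟨c, by simp [hc], h3, h4⟩
      · exact absurd (h1.trans he1) hj
      · rw [h2]
        exact ⟨e, by simp, h1.symm, le_self_add⟩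
    · intro i j hi hj hij h
      rcases cons_cases e v i j with h1 | ⟨h1, h2⟩ | ⟨h1, h2⟩
      · rw [h1] at h ⊢
        obtain ⟨c, d, hcd, h6, h7, h8⟩ := ih3 i j hi hj hij h
        exact ⟨c, d, hcd.cons _, h6, h7, h8⟩
      · exact absurd (h1.trans he1) hi
      · rw [h2] at h ⊢
        rw [he1] at h ⊢
        have h5 : prod v z j ≠ ⊤ := fun h6 => h (by rw [h6, add_top])
        obtain ⟨c, hc, h3, h4⟩ := ih1 j hj h5
        refine ⟨e, c, ?_, h1.symm, h3, by gcongr⟩
        exact (List.singleton_sublist.2 hc).cons_cons e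

/-- the subword of `L` at the positions in `K` -/
def sub (L : List (Fin n × Fin n × ℝ≥0∞)) (K : Finset (Fin L.length)) :
    List (Fin n × Fin n × ℝ≥0∞) :=
  ((List.finRange L.length).filter (fun p => decide (p ∈ K))).map L.get

lemma sub_sublist (L : List (Fin n × Fin n × ℝ≥0∞)) (K : Finset (Fin L.length)) :
    (sub L K).Sublist L := by
  unfold sub
  conv_rhs => rw [← List.map_get_finRange L]
  exact List.Sublist.map _ List.filter_sublist

lemma length_sub (L : List (Fin n × Fin n × ℝ≥0∞)) (K : Finset (Fin L.length)) :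
    (sub L K).length = K.card := by
  unfold sub
  rw [List.length_map, ← List.toFinset_card_of_nodup ((List.nodup_finRange _).filter _)]
  congr 1
  ext p
  simp

lemma single_sub (L : List (Fin n × Fin n × ℝ≥0∞)) (K : Finset (Fin L.length))
    (p : Fin L.length) (hp : p ∈ K) : [L.get p].Sublist (sub L K) := by
  rw [List.singleton_sublist]
  exact List.mem_map.2 ⟨p, by simp [hp], rfl⟩

lemma pair_sub (L : List (Fin n × Fin n × ℝ≥0∞)) (K : Finset (Fin L.length))
    (p q : Fin L.length) (hp : p ∈ K) (hq : q ∈ K) (h : p < q) :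
    [L.get p, L.get q].Sublist (sub L K) := by
  have h1 : [p, q].Sublist (List.finRange L.length) := by
    refine List.sublist_of_subperm_of_pairwise (r := (· < ·)) ?_ ?_
      (List.pairwise_lt_finRange _)
    · refine List.subperm_of_subset ?_ ?_
      · simp [h.ne]
      · intro x _
        exact List.mem_finRange x
    · simp [h]
  have h2 := h1.filter (fun p => decide (p ∈ K))
  have h3 : [p, q].filter (fun p => decide (p ∈ K)) = [p, q] := by simp [hp, hq]
  rw [h3] at h2
  exact h2.map L.get

lemma prod_single_le (c : Fin n × Fin n × ℝ≥0∞) : prod [c] c.1 c.2.1 ≤ c.2.2 := by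
  have := cons_le_left c [] c.2.1
  rwa [prod_nil, if_pos rfl, add_zero] at this

lemma prod_single_le' (c : Fin n × Fin n × ℝ≥0∞) : prod [c] c.2.1 c.1 ≤ c.2.2 := by
  have := cons_le_right c [] c.1
  rwa [prod_nil, if_pos rfl, add_zero] at this

lemma prod_pair_le (z : Fin n) (c d : Fin n × Fin n × ℝ≥0∞) (hc : c.1 = z) (hd : d.1 = z) :
    prod [c, d] c.2.1 d.2.1 ≤ c.2.2 + d.2.2 := by
  refine (cons_le_right c [d] d.2.1).trans (add_le_add le_rfl ?_)
  rw [hc, ← hd]
  exact prod_single_le d

lemma card_bound {α : Type*} [DecidableEq α] (f : Fin n → Fin n → α) :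
    ((Finset.univ : Finset (Fin n)).biUnion fun j => (Finset.Iio j).image fun i => f i j).card
      ≤ n.choose 2 := by
  refine Finset.card_biUnion_le.trans ?_
  calc ∑ j : Fin n, ((Finset.Iio j).image fun i => f i j).card
      ≤ ∑ j : Fin n, (j : ℕ) := by
        refine Finset.sum_le_sum fun j _ => ?_
        refine Finset.card_image_le.trans ?_
        rw [Fin.card_Iio]
    _ = n.choose 2 := by
        rw [Fin.sum_univ_eq_sum_range (fun i => i) n, Finset.sum_range_id, Nat.choose_two_right]

lemma split_at (v : List (Fin n × Fin n × ℝ≥0∞)) (t : Fin v.length) :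
    v = v.take t ++ v.get t :: v.drop (t + 1) := by
  conv_lhs => rw [← List.take_append_drop t v]
  congr 1
  exact List.drop_eq_getElem_cons t.2

lemma mem_take (v : List (Fin n × Fin n × ℝ≥0∞)) (t q : Fin v.length) (h : t < q) :
    v.get t ∈ v.take q := by
  rw [List.mem_take_iff_getElem]
  exact ⟨t, by
    rw [lt_min_iff]
    exact ⟨h, t.2⟩, rfl⟩

lemma mem_drop (v : List (Fin n × Fin n × ℝ≥0∞)) (t q : Fin v.length) (h : q < t) :
    v.get t ∈ v.drop (q + 1) := by
  rw [List.mem_drop_iff_getElem]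
  have h1 : (q : ℕ) + 1 ≤ t := h
  refine ⟨t - (q + 1), by have := t.2; omega, ?_⟩
  simp only [List.get_eq_getElem]
  congr 1
  omega

lemma exists_min (v : List (Fin n × Fin n × ℝ≥0∞)) (t0 : Fin v.length) (j : Fin n) :
    ∃ s : Fin v.length, (∃ t : Fin v.length, (v.get t).2.1 = j) →
      (v.get s).2.1 = j ∧ ∀ t, (v.get t).2.1 = j → (v.get s).2.2 ≤ (v.get t).2.2 := by
  by_cases h : ∃ t : Fin v.length, (v.get t).2.1 = j
  · obtain ⟨t1, ht1⟩ := h
    obtain ⟨s, hs, hmin⟩ := Finset.exists_min_image
      (Finset.univ.filter fun t : Fin v.length => (v.get t).2.1 = j) (fun t => (v.get t).2.2)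
      ⟨t1, by simpa using ht1⟩
    refine ⟨s, fun _ => ⟨by simpa using hs, fun t ht => hmin t (by simpa using ht)⟩⟩
  · exact ⟨t0, fun h' => absurd h' h⟩

/-- the extra call for a pair of leaves -/
lemma exists_extra (z : Fin n) (prs : List (Fin n × Fin n)) (hprs : ∀ i j, i ≠ j → (i, j) ∈ prs)
    (v : List (Fin n × Fin n × ℝ≥0∞)) (hv : ∀ c ∈ v, c.1 = z ∧ c.2.1 ≠ z)
    (g : Fin v.length ↪o Fin (full z prs [] v).length)
    (hg : ∀ t, v.get t = (full z prs [] v).get (g t)) (i j : Fin n) (hi : i ≠ z) (hj : j ≠ z)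
    (hij : i ≠ j) (si sj : Fin v.length) (hsi : (v.get si).2.1 = i)
    (hsi' : ∀ t, (v.get t).2.1 = i → (v.get si).2.2 ≤ (v.get t).2.2)
    (hsj : (v.get sj).2.1 = j) (hsj' : ∀ t, (v.get t).2.1 = j → (v.get sj).2.2 ≤ (v.get t).2.2)
    (htop : prod v j i ≠ ⊤) :
    ∃ h : Fin (full z prs [] v).length, ∀ K, g si ∈ K → g sj ∈ K → h ∈ K →
      prod (sub (full z prs [] v) K) j i ≤ prod v j i := by
  obtain ⟨c, d, hcd, hc, hd, hle⟩ := (attain z v hv).2.2 j i hj hi (Ne.symm hij) htop
  obtain ⟨f, hf⟩ := List.sublist_iff_exists_fin_orderEmbedding_get_eq.1 hcd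
  have hp : v.get (f ⟨0, by simp⟩) = c := (hf ⟨0, by simp⟩).symm
  have hq : v.get (f ⟨1, by simp⟩) = d := (hf ⟨1, by simp⟩).symm
  have hpq : f ⟨0, by simp⟩ < f ⟨1, by simp⟩ := by
    rw [f.lt_iff_lt]
    simp
  revert hp hq hpq
  generalize f ⟨0, by simp⟩ = p
  generalize f ⟨1, by simp⟩ = q
  intro hp hq hpq
  have hz : ∀ t : Fin v.length, (v.get t).1 = z := fun t => (hv _ (List.get_mem v t)).1
  by_cases h1 : p < si
  · refine ⟨g p, fun K hKi _ hKp => ?_⟩
    have h2 := pair_sub (full z prs [] v) K (g p) (g si) hKp hKi (g.lt_iff_lt.2 h1)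
    rw [← hg p, ← hg si] at h2
    have h3 := (sub_le h2 j i)
    have h4 := prod_pair_le z (v.get p) (v.get si) (hz p) (hz si)
    rw [hp, hc, hsi] at h4
    rw [hp] at h3
    refine h3.trans (h4.trans (le_trans ?_ hle))
    refine add_le_add le_rfl ?_
    have := hsi' q (by rw [hq, hd])
    rwa [hq] at this
  by_cases h1' : sj < q
  · refine ⟨g q, fun K _ hKj hKq => ?_⟩
    have h2 := pair_sub (full z prs [] v) K (g sj) (g q) hKj hKq (g.lt_iff_lt.2 h1')
    rw [← hg q, ← hg sj] at h2
    have h3 := (sub_le h2 j i)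
    have h4 := prod_pair_le z (v.get sj) (v.get q) (hz sj) (hz q)
    rw [hq, hd, hsj] at h4
    rw [hq] at h3
    refine h3.trans (h4.trans (le_trans ?_ hle))
    refine add_le_add ?_ le_rfl
    have := hsj' p (by rw [hp, hc])
    rwa [hp] at this
  · -- the direct call
    have hsip : si < p := by
      refine lt_of_le_of_ne (not_lt.1 h1) ?_
      rintro rfl
      apply hij
      rw [← hsi, hp, hc]
    have hqsj : q < sj := by
      refine lt_of_le_of_ne (not_lt.1 h1') ?_
      rintro rfl
      apply hij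
      rw [← hsj, hq, hd]
    have hmem := mem_full z prs (i, j) (hprs i j hij) (v.get q) (v.drop (q + 1)) (v.take q) []
    rw [← split_at v q, List.nil_append] at hmem
    obtain ⟨u, hu⟩ := List.mem_iff_get.1 hmem
    refine ⟨u, fun K _ _ hKu => ?_⟩
    have h2 := single_sub (full z prs [] v) K u hKu
    rw [hu] at h2
    refine (sub_le h2 j i).trans ?_
    refine (prod_single_le' (i, j, dc z (v.take q) (v.get q :: v.drop (q + 1)) i j)).trans ?_
    simp only
    refine le_trans ?_ hle
    unfold dc
    have hone : ∀ (w : List (Fin n × Fin n × ℝ≥0∞)) (t : Fin v.length), v.get t ∈ w →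
        prod w (v.get t).2.1 z ≤ (v.get t).2.2 ∧ prod w z (v.get t).2.1 ≤ (v.get t).2.2 := by
      intro w t ht
      have h5 : [v.get t].Sublist w := List.singleton_sublist.2 ht
      constructor
      · refine (sub_le h5 _ _).trans ?_
        have := prod_single_le' (v.get t)
        rwa [hz t] at this
      · refine (sub_le h5 _ _).trans ?_
        have := prod_single_le (v.get t)
        rwa [hz t] at this
    have e1 := (hone (v.take q) si (mem_take v si q (hsip.trans hpq))).1
    have e2 := (hone (v.get q :: v.drop (q + 1)) q List.mem_cons_self).2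
    have e3 := (hone (v.take q) p (mem_take v p q hpq)).1
    have e4 := (hone (v.get q :: v.drop (q + 1)) sj
      (List.mem_cons_of_mem _ (mem_drop v sj q hqsj))).2
    rw [hsi] at e1
    rw [hsj] at e4
    have e5 := hsi' q (by rw [hq, hd])
    have e6 := hsj' p (by rw [hp, hc])
    rw [hp, hc] at e3
    rw [hp] at e6
    rw [show (v.get q).2.1 = i by rw [hq, hd]] at e2
    rw [hq] at e5
    have e7 : (v.get q).2.2 = d.2.2 := by rw [hq]
    rw [e7] at e2
    rw [add_comm c.2.2]
    refine add_le_add (max_le (e1.trans e5) e2) (max_le e3 (e4.trans e6))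

lemma core (z : Fin n) (v : List (Fin n × Fin n × ℝ≥0∞))
    (hv : ∀ c ∈ v, c.1 = z ∧ c.2.1 ≠ z) :
    ∃ w : List (Fin n × Fin n × ℝ≥0∞), (∀ c ∈ w, c.1 ≠ c.2.1) ∧ w.length ≤ n.choose 2 ∧
      prod w = prod v := by
  by_cases hnil : v = []
  · subst hnil
    exact ⟨[], by simp, by simp, rfl⟩
  have hpos : 0 < v.length := List.length_pos_of_ne_nil hnil
  classical
  set prs := (Finset.univ.filter fun p : Fin n × Fin n => p.1 ≠ p.2).toList with hprs
  have hprs1 : ∀ i j, i ≠ j → (i, j) ∈ prs := by
    intro i j h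
    rw [hprs, Finset.mem_toList]
    simpa using h
  have hprs2 : ∀ p ∈ prs, p.1 ≠ p.2 := by
    intro p hp
    rw [hprs, Finset.mem_toList] at hp
    simpa using hp
  obtain ⟨g, hg⟩ := List.sublist_iff_exists_fin_orderEmbedding_get_eq.1 (sub_full z prs [] v)
  have hL : prod (full z prs [] v) = prod v := by
    have := full_prod z prs [] v (by simp) (fun c hc => (hv c hc).1)
    simpa using this
  choose s hs using exists_min v ⟨0, hpos⟩
  have hz : ∀ t : Fin v.length, (v.get t).1 = z := fun t => (hv _ (List.get_mem v t)).1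
  have hex : ∀ i j : Fin n, ∃ h : Fin (full z prs [] v).length, i ≠ z → j ≠ z → i ≠ j →
      (∃ t : Fin v.length, (v.get t).2.1 = i) → (∃ t : Fin v.length, (v.get t).2.1 = j) →
      prod v j i ≠ ⊤ → ∀ K, g (s i) ∈ K → g (s j) ∈ K → h ∈ K →
        prod (sub (full z prs [] v) K) j i ≤ prod v j i := by
    intro i j
    by_cases hall : i ≠ z ∧ j ≠ z ∧ i ≠ j ∧ (∃ t : Fin v.length, (v.get t).2.1 = i) ∧
        (∃ t : Fin v.length, (v.get t).2.1 = j) ∧ prod v j i ≠ ⊤
    · obtain ⟨hi, hj, hij, hti, htj, htop⟩ := hall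
      obtain ⟨h, hh⟩ := exists_extra z prs hprs1 v hv g hg i j hi hj hij (s i) (s j)
        (hs i hti).1 (hs i hti).2 (hs j htj).1 (hs j htj).2 htop
      exact ⟨h, fun _ _ _ _ _ _ => hh⟩
    · exact ⟨g (s i), fun a b c d e f => absurd ⟨a, b, c, d, e, f⟩ hall⟩
  choose h hh using hex
  set F : Fin n → Fin n → Fin (full z prs [] v).length := fun i j =>
    if i = z then g (s j) else if j = z then g (s i) else if s i < s j then h i j else h j i
    with hF
  set K := (Finset.univ : Finset (Fin n)).biUnion fun j => (Finset.Iio j).image fun i => F i j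
    with hK
  have hFK : ∀ i j, i < j → F i j ∈ K := by
    intro i j hij
    rw [hK, Finset.mem_biUnion]
    exact ⟨j, Finset.mem_univ j, Finset.mem_image.2 ⟨i, Finset.mem_Iio.2 hij, rfl⟩⟩
  have hK1 : ∀ j, j ≠ z → g (s j) ∈ K := by
    intro j hj
    rcases lt_or_gt_of_ne hj with hlt | hlt
    · have := hFK j z hlt
      rw [hF] at this
      simpa [hj] using this
    · have := hFK z j hlt
      rw [hF] at this
      simpa using this
  have hK2 : ∀ i j, i ≠ z → j ≠ z → i ≠ j → s i < s j → h i j ∈ K := by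
    intro i j hi hj hij hlt
    rcases lt_or_gt_of_ne hij with h1 | h1
    · have := hFK i j h1
      rw [hF] at this
      simpa [hi, hj, hlt] using this
    · have := hFK j i h1
      rw [hF] at this
      simpa [hi, hj, not_lt.2 hlt.le] using this
  refine ⟨sub (full z prs [] v) K, ?_, ?_, ?_⟩
  · intro c hc
    refine full_valid z prs hprs2 [] v (fun d hd => ?_) c ((sub_sublist _ _).subset hc)
    obtain ⟨h1, h2⟩ := hv d hd
    rw [h1]
    exact Ne.symm h2
  · rw [length_sub]
    exact card_bound F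
  · funext i j
    apply le_antisymm
    · by_cases hij : i = j
      · subst hij
        rw [diag_zero, diag_zero]
      by_cases htop : prod v i j = ⊤
      · rw [htop]
        exact le_top
      by_cases hi : i = z
      · subst hi
        have hj : j ≠ i := Ne.symm hij
        obtain ⟨c, hc, hc1, hc2⟩ := (attain i v hv).1 j hj htop
        obtain ⟨t, rfl⟩ := List.mem_iff_get.1 hc
        obtain ⟨h1, h2⟩ := hs j ⟨t, hc1⟩
        have h3 := single_sub (full i prs [] v) K (g (s j)) (hK1 j hj)
        rw [← hg] at h3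
        refine (sub_le h3 i j).trans (le_trans ?_ ((h2 t hc1).trans hc2))
        have := prod_single_le (v.get (s j))
        rwa [hz, h1] at this
      by_cases hj : j = z
      · subst hj
        obtain ⟨c, hc, hc1, hc2⟩ := (attain j v hv).2.1 i hi htop
        obtain ⟨t, rfl⟩ := List.mem_iff_get.1 hc
        obtain ⟨h1, h2⟩ := hs i ⟨t, hc1⟩
        have h3 := single_sub (full j prs [] v) K (g (s i)) (hK1 i hi)
        rw [← hg] at h3
        refine (sub_le h3 i j).trans (le_trans ?_ ((h2 t hc1).trans hc2))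
        have := prod_single_le' (v.get (s i))
        rwa [hz, h1] at this
      obtain ⟨c, d, hcd, hc, hd, hle⟩ := (attain z v hv).2.2 i j hi hj hij htop
      have hcm : c ∈ v := hcd.subset (by simp)
      have hdm : d ∈ v := hcd.subset (by simp)
      obtain ⟨t, rfl⟩ := List.mem_iff_get.1 hcm
      obtain ⟨t', rfl⟩ := List.mem_iff_get.1 hdm
      obtain ⟨h1, h2⟩ := hs i ⟨t, hc⟩
      obtain ⟨h3, h4⟩ := hs j ⟨t', hd⟩
      have hne : s i ≠ s j := by
        intro h5
        apply hij
        rw [← h1, ← h3, h5]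
      rcases lt_or_gt_of_ne hne with hlt | hlt
      · have h5 := pair_sub (full z prs [] v) K (g (s i)) (g (s j)) (hK1 i hi) (hK1 j hj)
          (g.lt_iff_lt.2 hlt)
        rw [← hg, ← hg] at h5
        have h6 := prod_pair_le z (v.get (s i)) (v.get (s j)) (hz _) (hz _)
        rw [h1, h3] at h6
        exact (sub_le h5 i j).trans (h6.trans
          ((add_le_add (h2 t hc) (h4 t' hd)).trans hle))
      · exact hh j i hj hi (Ne.symm hij) ⟨t', hd⟩ ⟨t, hc⟩ htop K (hK1 j hj) (hK1 i hi)
          (hK2 j i hj hi (Ne.symm hij) hlt)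
    · rw [← hL]
      exact sub_le (sub_sublist _ _) i j

lemma prod_flip (z : Fin n) (w : List (Fin n × Fin n × ℝ≥0∞)) :
    prod (w.map fun c => if c.1 = z then c else (c.2.1, c.1, c.2.2)) = prod w := by
  induction w with
  | nil => rfl
  | cons c w ih =>
    rw [List.map_cons]
    unfold prod
    rw [ih]
    congr 1
    split_ifs with h
    · rfl
    · exact call_comm _ _ _

/-- **Star networks.** If all calls of a product of lossy phone calls involve one fixed person,
then the product is a product of at most `n.choose 2` lossy phone calls. -/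
theorem result (n : ℕ) (z : Fin n) (w : List (Fin n × Fin n × ℝ≥0∞))
    (hw : ∀ c ∈ w, c.1 ≠ c.2.1 ∧ (c.1 = z ∨ c.2.1 = z)) :
    ∃ w' : List (Fin n × Fin n × ℝ≥0∞), (∀ c ∈ w', c.1 ≠ c.2.1) ∧
      w'.length ≤ n.choose 2 ∧ prod w' = prod w := by
  obtain ⟨w', h1, h2, h3⟩ := core z
    (w.map fun c => if c.1 = z then c else (c.2.1, c.1, c.2.2)) (by
      intro d hd
      obtain ⟨c, hc, rfl⟩ := List.mem_map.1 hd
      obtain ⟨h1, h2⟩ := hw c hc
      split_ifs with h
      · exact ⟨h, by rw [← h]; exact Ne.symm h1⟩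
      · rcases h2 with h2 | h2
        · exact absurd h2 h
        · exact ⟨h2, h⟩)
  exact ⟨w', h1, h2, by rw [h3, prod_flip]⟩

end Pool.Agent.Results.MP_8f6a89_co.StarNetwork
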